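import Mathlib

set_option autoImplicit false

namespace Pool.Agent.Results.MP_fa2e48_al.EndoSlender

open Function

universe u

/-- A left module `M` over a ring `R` is slender when every `R`-linear map from the countable
direct power of `R` to `M` kills all but finitely many of the standard elements `e_n`. -/
def Slender (R : Type u) (M : Type u) [Ring R] [AddCommGroup M] [Module R M] : Prop :=
  ∀ f : (ℕ → R) →ₗ[R] M, {n : ℕ | f (Pi.single n 1) ≠ 0}.Finite

/-- The abelian group `A` is slender as a left module over its endomorphism ring. -/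
def ESlender (A : Type u) [AddCommGroup A] : Prop := Slender (AddMonoid.End A) A

/-- The subgroup of the elements of infinite `p`-height (divisible by all powers of `p`). -/
def infHeight (p : ℕ) (A : Type u) [AddCommGroup A] : AddSubgroup A where
  carrier := {a | ∀ n : ℕ, ∃ b : A, p ^ n • b = a}
  zero_mem' := fun n => ⟨0, smul_zero _⟩
  add_mem' := fun {a b} ha hb n => by
    obtain ⟨x, hx⟩ := ha n
    obtain ⟨y, hy⟩ := hb n
    exact ⟨x + y, by rw [smul_add, hx, hy]⟩
  neg_mem' := fun {a} ha n => by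
    obtain ⟨x, hx⟩ := ha n
    exact ⟨-x, by rw [smul_neg, hx]⟩

/-- The sum of all divisible subgroups of `A`. -/
def divPart (A : Type u) [AddCommGroup A] : AddSubgroup A :=
  sSup {H : AddSubgroup A | ∀ n : ℕ, n ≠ 0 → ∀ x ∈ H, ∃ y ∈ H, n • y = x}

/-- `s` converges to `a` in the `p`-adic topology of `A`. -/
def Tends (p : ℕ) {A : Type u} [AddCommGroup A] (s : ℕ → A) (a : A) : Prop :=
  ∀ m : ℕ, ∃ N : ℕ, ∀ i ≥ N, ∃ b : A, p ^ m • b = s i - a

/-- `s` is a Cauchy sequence in the `p`-adic topology of `A`. -/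
def Cau (p : ℕ) {A : Type u} [AddCommGroup A] (s : ℕ → A) : Prop :=
  ∀ m : ℕ, ∃ N : ℕ, ∀ i ≥ N, ∀ j ≥ N, ∃ b : A, p ^ m • b = s i - s j

/-- Torsion-completeness: every `p`-adic Cauchy sequence of bounded order converges. -/
def TorsionComplete (p : ℕ) (A : Type u) [AddCommGroup A] : Prop :=
  ∀ (k : ℕ) (s : ℕ → A), (∀ n, p ^ k • s n = 0) → Cau p s → ∃ a, Tends p s a

variable {A : Type u} [AddCommGroup A]

theorem map_single_gen {R M : Type u} [Ring R] [AddCommGroup M] [Module R M]
    (f : (ℕ → R) →ₗ[R] M) (n : ℕ) (r : R) : f (Pi.single n r) = r • f (Pi.single n 1) := by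
  have h : (Pi.single n r : ℕ → R) = r • (Pi.single n 1 : ℕ → R) := by
    funext k
    rcases eq_or_ne k n with rfl | hk
    · rw [Pi.smul_apply, Pi.single_eq_same, Pi.single_eq_same, smul_eq_mul, mul_one]
    · rw [Pi.smul_apply, Pi.single_eq_of_ne hk, Pi.single_eq_of_ne hk, smul_zero]
  rw [h, map_smul]

theorem map_mul_gen {R M : Type u} [Ring R] [AddCommGroup M] [Module R M]
    (f : (ℕ → R) →ₗ[R] M) (r : R) (g : ℕ → R) : f (fun n => r * g n) = r • f g := by
  have h : (fun n => r * g n) = r • g := rfl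
  rw [h, map_smul]

theorem not_slender_gen {R M : Type u} [Ring R] [AddCommGroup M] [Module R M]
    (F : (ℕ → R) → M) (hadd : ∀ g h : ℕ → R, F (fun n => g n + h n) = F g + F h)
    (hsmul : ∀ (r : R) (g : ℕ → R), F (fun n => r * g n) = r • F g)
    (hne : ∀ n, F (Pi.single n 1) ≠ 0) : ¬ Slender R M := by
  intro hsl
  have hfin := hsl { toFun := F, map_add' := hadd, map_smul' := hsmul }
  have huniv : {n : ℕ | ({ toFun := F, map_add' := hadd, map_smul' := hsmul } :
      (ℕ → R) →ₗ[R] M) (Pi.single n 1) ≠ 0} = Set.univ := by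
    apply Set.eq_univ_of_forall
    intro n
    exact hne n
  rw [huniv] at hfin
  exact Set.infinite_univ hfin

/-- A limit operation compatible with endomorphisms gives a non-slender module. -/
theorem not_slender_of_lim (Lim : (ℕ → A) → A → Prop)
    (huniq : ∀ s a b, Lim s a → Lim s b → a = b)
    (hadd : ∀ s t a b, Lim s a → Lim t b → Lim (fun n => s n + t n) (a + b))
    (hend : ∀ (φ : AddMonoid.End A) s a, Lim s a → Lim (fun n => φ (s n)) (φ a))
    (hconst : ∀ s a N, (∀ n, N ≤ n → s n = a) → Lim s a)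
    (a : ℕ → A) (ha : ∀ n, a n ≠ 0)
    (hex : ∀ φ : ℕ → AddMonoid.End A,
      ∃ v, Lim (fun n => ∑ i ∈ Finset.range n, φ i (a i)) v) : ¬ ESlender A := by
  choose F hF using hex
  apply not_slender_gen F
  · intro φ ψ
    apply huniq _ _ _ (hF (fun n => φ n + ψ n))
    have h := hadd _ _ _ _ (hF φ) (hF ψ)
    have e : (fun n => ∑ i ∈ Finset.range n, (φ i + ψ i) (a i)) =
        fun n => (∑ i ∈ Finset.range n, φ i (a i)) + ∑ i ∈ Finset.range n, ψ i (a i) := by
      funext n
      rw [← Finset.sum_add_distrib]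
      rfl
    rw [e]
    exact h
  · intro c φ
    apply huniq _ _ _ (hF (fun n => c * φ n))
    have h := hend c _ _ (hF φ)
    have e : (fun n => ∑ i ∈ Finset.range n, (c * φ i) (a i)) =
        fun n => c (∑ i ∈ Finset.range n, φ i (a i)) := by
      funext n
      rw [map_sum]
      rfl
    rw [e]
    exact h
  · intro n
    have h1 : F (Pi.single n 1) = a n := by
      apply huniq _ _ _ (hF (Pi.single n 1))
      apply hconst _ _ (n + 1)
      intro k hk
      rw [Finset.sum_eq_single_of_mem n (Finset.mem_range.2 (by omega))]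
      · simp
      · intro i _ hi
        rw [Pi.single_eq_of_ne hi]
        rfl
    rw [h1]
    exact ha n

/-- A nonzero finite fully invariant subgroup prevents slenderness. -/
theorem not_slender_of_finite (F : AddSubgroup A) (hfin : Finite F) (hne : F ≠ ⊥)
    (hinv : ∀ (φ : AddMonoid.End A), ∀ x ∈ F, φ x ∈ F) : ¬ ESlender A := by
  obtain ⟨x, hxF, hx0⟩ : ∃ x : A, x ∈ F ∧ x ≠ 0 := by
    by_contra hcon
    push Not at hcon
    exact hne ((AddSubgroup.eq_bot_iff_forall F).2 hcon)
  let U : Ultrafilter ℕ := Filter.hyperfilter ℕ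
  apply not_slender_of_lim (fun s v => ∀ᶠ n in (U : Filter ℕ), s n = v)
    _ _ _ _ (fun _ => x) (fun _ => hx0)
  · intro φ
    -- the partial sums lie in F
    let t : ℕ → F := fun n => ∑ i ∈ Finset.range n, ⟨φ i x, hinv (φ i) x hxF⟩
    obtain ⟨v, hv⟩ := (U.map t).eq_pure_of_finite
    refine ⟨(v : A), ?_⟩
    have h1 : {v} ∈ U.map t := by rw [hv]; exact Set.mem_singleton v
    have h2 : ∀ᶠ n in (U : Filter ℕ), t n = v := h1
    filter_upwards [h2] with n hn
    have h3 : ((t n : F) : A) = v := by rw [hn]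
    rw [← h3]
    have h4 : F.subtype (t n) = ∑ i ∈ Finset.range n, φ i x := by
      simp only [t, map_sum]
      rfl
    exact h4.symm
  · intro s a b h1 h2
    obtain ⟨n, hn1, hn2⟩ := (h1.and h2).exists
    rw [← hn1, ← hn2]
  · intro s t a b h1 h2
    filter_upwards [h1, h2] with n hn1 hn2
    rw [hn1, hn2]
  · intro φ s a h1
    filter_upwards [h1] with n hn1
    rw [hn1]
  · intro s a N h
    have h1 : ∀ᶠ n in Filter.atTop, s n = a := Filter.eventually_atTop.2 ⟨N, fun n hn => h n hn⟩
    have h2 : (U : Filter ℕ) ≤ Filter.atTop := by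
      have := Filter.hyperfilter_le_cofinite (α := ℕ)
      rw [Nat.cofinite_eq_atTop] at this
      exact this
    exact h2 h1

/-- Convergence is unique when there are no elements of infinite height. -/
theorem tends_unique (p : ℕ) (hsep : ∀ a : A, (∀ n : ℕ, ∃ b : A, p ^ n • b = a) → a = 0)
    (s : ℕ → A) (a b : A) (h1 : Tends p s a) (h2 : Tends p s b) : a = b := by
  rw [← sub_eq_zero]
  apply hsep
  intro m
  obtain ⟨N1, hN1⟩ := h1 m
  obtain ⟨N2, hN2⟩ := h2 m
  obtain ⟨x, hx⟩ := hN1 (max N1 N2) (le_max_left _ _)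
  obtain ⟨y, hy⟩ := hN2 (max N1 N2) (le_max_right _ _)
  refine ⟨y - x, ?_⟩
  rw [smul_sub, hx, hy]
  abel

/-- A torsion-complete unbounded group without elements of infinite height is not slender. -/
theorem not_slender_of_tc (p : ℕ) (hpg : ∀ a : A, ∃ n : ℕ, p ^ n • a = 0)
    (hsep : ∀ a : A, (∀ n : ℕ, ∃ b : A, p ^ n • b = a) → a = 0)
    (hunb : ∀ n : ℕ, ∃ a : A, p ^ n • a ≠ 0) (htc : TorsionComplete p A) : ¬ ESlender A := by
  have hex : ∀ n : ℕ, ∃ b : A, p ^ n • b ≠ 0 ∧ p • (p ^ n • b) = 0 := by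
    intro n
    obtain ⟨a, ha⟩ := hunb n
    obtain ⟨k, hk⟩ := hpg a
    have hex2 : ∃ k, p ^ k • a = 0 := ⟨k, hk⟩
    classical
    obtain ⟨j, hj0, hjmin⟩ : ∃ j, p ^ j • a = 0 ∧ ∀ i, p ^ i • a = 0 → j ≤ i :=
      ⟨Nat.find hex2, Nat.find_spec hex2, fun i hi => Nat.find_min' hex2 hi⟩
    have hnj : n < j := by
      by_contra hcon
      push Not at hcon
      apply ha
      obtain ⟨d, rfl⟩ := Nat.exists_eq_add_of_le hcon
      rw [pow_add, mul_comm, mul_smul, hj0, smul_zero]
    refine ⟨p ^ (j - 1 - n) • a, ?_, ?_⟩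
    · intro h
      rw [← mul_smul, ← pow_add] at h
      have := hjmin _ h
      omega
    · rw [← mul_smul, ← mul_smul, ← pow_succ', ← pow_add]
      have : n + 1 + (j - 1 - n) = j := by omega
      rw [this, hj0]
  choose b hb1 hb2 using hex
  apply not_slender_of_lim (fun s v => Tends p s v) (tends_unique p hsep) _ _ _
    (fun n => p ^ n • b n) hb1
  · intro φ
    apply htc 1
    · intro n
      rw [pow_one, Finset.smul_sum]
      apply Finset.sum_eq_zero
      intro i _
      rw [← map_nsmul, hb2, map_zero]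
    · have key : ∀ m i j : ℕ, m ≤ i → i ≤ j → ∃ x : A, p ^ m • x =
          (∑ l ∈ Finset.range j, φ l (p ^ l • b l)) - ∑ l ∈ Finset.range i, φ l (p ^ l • b l) := by
        intro m i j hmi hij
        rw [← Finset.sum_Ico_eq_sub _ hij]
        refine ⟨∑ l ∈ Finset.Ico i j, φ l (p ^ (l - m) • b l), ?_⟩
        rw [Finset.smul_sum]
        apply Finset.sum_congr rfl
        intro l hl
        rw [← map_nsmul, ← mul_smul, ← pow_add]
        have : m + (l - m) = l := by
          have := (Finset.mem_Ico.1 hl).1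
          omega
        rw [this]
      intro m
      refine ⟨m, fun i hi j hj => ?_⟩
      rcases le_total i j with h | h
      · obtain ⟨x, hx⟩ := key m i j hi h
        refine ⟨-x, ?_⟩
        rw [smul_neg, hx]
        abel
      · exact key m j i hj h
  · intro s t a b h1 h2 m
    obtain ⟨N1, hN1⟩ := h1 m
    obtain ⟨N2, hN2⟩ := h2 m
    refine ⟨max N1 N2, fun i hi => ?_⟩
    obtain ⟨x, hx⟩ := hN1 i (le_trans (le_max_left _ _) hi)
    obtain ⟨y, hy⟩ := hN2 i (le_trans (le_max_right _ _) hi)
    refine ⟨x + y, ?_⟩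
    rw [smul_add, hx, hy]
    exact (add_sub_add_comm _ _ _ _).symm
  · intro φ s a h1 m
    obtain ⟨N1, hN1⟩ := h1 m
    refine ⟨N1, fun i hi => ?_⟩
    obtain ⟨x, hx⟩ := hN1 i hi
    refine ⟨φ x, ?_⟩
    rw [← map_nsmul, hx, map_sub]
  · intro s a N h m
    refine ⟨N, fun i hi => ⟨0, ?_⟩⟩
    rw [h i hi, smul_zero, sub_self]


/-- The homomorphism from `ZMod N` sending `1` to `y`. -/
noncomputable def zl (N : ℕ) (y : A) (hy : N • y = 0) : ZMod N →+ A :=
  ZMod.lift N ⟨zmultiplesHom A y, by
    rw [zmultiplesHom_apply, natCast_zsmul]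
    exact hy⟩

theorem zl_int (N : ℕ) (y : A) (hy : N • y = 0) (m : ℤ) :
    zl N y hy (m : ZMod N) = m • y := by
  unfold zl
  rw [ZMod.lift_coe]
  rfl

theorem zl_injective (N : ℕ) (y : A) (hy : N • y = 0)
    (h : ∀ m : ℤ, m • y = 0 → (N : ℤ) ∣ m) : Injective (zl N y hy) := by
  unfold zl
  rw [ZMod.lift_injective]
  intro m hm
  rw [ZMod.intCast_zmod_eq_zero_iff_dvd]
  exact h m hm

theorem exists_embed (N : ℕ) (hN : 0 < N) :
    ∃ j : ZMod N →+ AddCircle (1 : ℚ), Injective j ∧
      ∀ x : AddCircle (1 : ℚ), N • x = 0 → ∃ m : ZMod N, j m = x := by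
  have hN0 : (N : ℚ) ≠ 0 := by positivity
  have hy : N • ((1 / N : ℚ) : AddCircle (1 : ℚ)) = 0 := by
    rw [← AddCircle.coe_nsmul, AddCircle.coe_eq_zero_iff]
    refine ⟨1, ?_⟩
    rw [one_zsmul, nsmul_eq_mul]
    field_simp
  refine ⟨zl N _ hy, zl_injective N _ hy ?_, ?_⟩
  · intro m hm
    rw [← AddCircle.coe_zsmul, AddCircle.coe_eq_zero_iff] at hm
    obtain ⟨n, hn⟩ := hm
    refine ⟨n, ?_⟩
    simp only [zsmul_eq_mul, mul_one] at hn
    have h1 : (m : ℚ) = N * n := by
      rw [hn]
      field_simp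
    exact_mod_cast h1
  · intro x hx
    obtain ⟨q, rfl⟩ := QuotientAddGroup.mk_surjective x
    have hx' : N • ((q : ℚ) : AddCircle (1 : ℚ)) = 0 := hx
    rw [← AddCircle.coe_nsmul, AddCircle.coe_eq_zero_iff] at hx'
    obtain ⟨n, hn⟩ := hx'
    refine ⟨(n : ZMod N), ?_⟩
    rw [zl_int, ← AddCircle.coe_zsmul]
    have h1 : n • (1 / N : ℚ) = q := by
      simp only [zsmul_eq_mul, nsmul_eq_mul, mul_one] at hn ⊢
      rw [hn]
      field_simp
    rw [h1]

/-- Factor a homomorphism through an injective one. -/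
theorem exists_factor {X C D : Type*} [AddCommGroup X] [AddCommGroup C] [AddCommGroup D]
    (j : C →+ D) (hj : Injective j) (c : X →+ D) (h : ∀ x, ∃ m, j m = c x) :
    ∃ χ : X →+ C, ∀ x, j (χ x) = c x := by
  choose g hg using h
  refine ⟨{ toFun := g, map_zero' := ?_, map_add' := ?_ }, hg⟩
  · apply hj
    rw [hg, map_zero, map_zero]
  · intro x y
    apply hj
    rw [hg, map_add, map_add, hg, hg]

/-- The range of multiplication by `N`. -/
def mulRange (N : ℕ) (A : Type u) [AddCommGroup A] : AddSubgroup A :=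
  (nsmulAddMonoidHom (α := A) N).range

theorem mem_mulRange (N : ℕ) (a : A) : a ∈ mulRange N A ↔ ∃ b : A, N • b = a := Iff.rfl

/-- An element not divisible by `N` is detected by a homomorphism to `ZMod N`. -/
theorem exists_detect (N : ℕ) (hN : 0 < N) (a : A) (ha : ¬ ∃ b : A, N • b = a) :
    ∃ χ : A →+ ZMod N, χ a ≠ 0 := by
  have hne : (QuotientAddGroup.mk a : A ⧸ mulRange N A) ≠ 0 := by
    intro h
    rw [QuotientAddGroup.eq_zero_iff] at h
    exact ha ((mem_mulRange N a).1 h)
  obtain ⟨c, hc⟩ := CharacterModule.exists_character_apply_ne_zero_of_ne_zero hne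
  obtain ⟨j, hj, hjr⟩ := exists_embed N hN
  let c' : A →+ AddCircle (1 : ℚ) :=
    (show (A ⧸ mulRange N A) →+ AddCircle (1 : ℚ) from c).comp (QuotientAddGroup.mk' _)
  obtain ⟨χ, hχ⟩ := exists_factor j hj c' (by
    intro x
    apply hjr
    rw [← map_nsmul]
    show c (QuotientAddGroup.mk (N • x)) = 0
    have h0 : (QuotientAddGroup.mk (N • x) : A ⧸ mulRange N A) = 0 := by
      rw [QuotientAddGroup.eq_zero_iff]
      exact ⟨x, rfl⟩
    rw [h0, map_zero])
  refine ⟨χ, ?_⟩
  intro h0
  apply hc
  have := hχ a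
  rw [h0, map_zero] at this
  exact this.symm

/-- An element not divisible by `p ^ N` can be sent to `p ^ h` in `ZMod (p ^ (h + 1))`. -/
theorem exists_detect_pow (p : ℕ) (hp : p.Prime) (N h : ℕ) (hNh : N ≤ h) (a : A)
    (ha : ¬ ∃ b : A, p ^ N • b = a) :
    ∃ χ : A →+ ZMod (p ^ (h + 1)), χ a = ((p ^ h : ℕ) : ZMod (p ^ (h + 1))) := by
  obtain ⟨χ, hχ⟩ := exists_detect (p ^ N) (pow_pos hp.pos N) a ha
  have : NeZero (p ^ N) := ⟨(pow_pos hp.pos N).ne'⟩
  set v := (χ a).val with hv
  have hv0 : v ≠ 0 := by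
    intro h0
    apply hχ
    rwa [hv, ZMod.val_eq_zero] at h0
  obtain ⟨e, r, hr, hver⟩ := Nat.exists_eq_pow_mul_and_not_dvd hv0 p hp.ne_one
  have heN : e < N := by
    have h1 : v < p ^ N := ZMod.val_lt _
    have h2 : p ^ e ≤ v := by
      rw [hver]
      apply Nat.le_mul_of_pos_right
      rcases Nat.eq_zero_or_pos r with h | h
      · subst h
        simp at hr
      · exact h
    exact (Nat.pow_lt_pow_iff_right hp.one_lt).1 (lt_of_le_of_lt h2 h1)
  have hcop : Nat.Coprime r (p ^ (h + 1)) :=
    Nat.Coprime.pow_right _ ((Nat.Prime.coprime_iff_not_dvd hp).2 hr).symm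
  obtain ⟨w, hw⟩ : ∃ w : ZMod (p ^ (h + 1)), (r : ZMod (p ^ (h + 1))) * w = 1 := by
    refine ⟨((ZMod.unitOfCoprime r hcop)⁻¹ : (ZMod (p ^ (h + 1)))ˣ), ?_⟩
    have h2 : (r : ZMod (p ^ (h + 1))) =
        ((ZMod.unitOfCoprime r hcop : (ZMod (p ^ (h + 1)))ˣ) : ZMod (p ^ (h + 1))) :=
      (ZMod.coe_unitOfCoprime r hcop).symm
    rw [h2]
    exact Units.mul_inv _
  have hpz : ((p ^ (h + 1) : ℕ) : ZMod (p ^ (h + 1))) = 0 := ZMod.natCast_self _
  have hy0 : p ^ N • (((p ^ (h - e) : ℕ) : ZMod (p ^ (h + 1))) * w) = 0 := by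
    have e1 : p ^ N * p ^ (h - e) = p ^ (h + 1) * p ^ (N - e - 1) := by
      rw [← pow_add, ← pow_add]
      congr 1
      omega
    rw [nsmul_eq_mul, ← mul_assoc, ← Nat.cast_mul, e1, Nat.cast_mul, hpz, zero_mul, zero_mul]
  refine ⟨(zl (p ^ N) _ hy0).comp χ, ?_⟩
  have h1 : χ a = ((v : ℤ) : ZMod (p ^ N)) := by
    rw [hv]
    simp
  rw [AddMonoidHom.comp_apply, h1, zl_int, natCast_zsmul, nsmul_eq_mul, hver]
  have h3 : p ^ h = p ^ e * p ^ (h - e) := by
    rw [← pow_add]
    congr 1
    omega
  calc ((p ^ e * r : ℕ) : ZMod (p ^ (h + 1))) * (((p ^ (h - e) : ℕ) : ZMod (p ^ (h + 1))) * w)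
      = ((p ^ e * p ^ (h - e) : ℕ) : ZMod (p ^ (h + 1))) * ((r : ZMod (p ^ (h + 1))) * w) := by
        push_cast
        ring
    _ = _ := by rw [hw, mul_one, ← h3]

/-- Elements of order exactly `p ^ n` in an unbounded `p`-group. -/
theorem exists_order (p : ℕ) (hp : p.Prime) (hpg : ∀ a : A, ∃ n : ℕ, p ^ n • a = 0)
    (hunb : ∀ n : ℕ, ∃ a : A, p ^ n • a ≠ 0) (N : ℕ) :
    ∃ j : ZMod (p ^ N) →+ A, Injective j := by
  obtain ⟨a, ha⟩ := hunb N
  obtain ⟨k, hk⟩ := hpg a
  obtain ⟨M, hM⟩ : ∃ M, addOrderOf a = p ^ M := by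
    obtain ⟨i, _, hi⟩ := (Nat.dvd_prime_pow hp).1 (addOrderOf_dvd_of_nsmul_eq_zero hk)
    exact ⟨i, hi⟩
  have hNM : N ≤ M := by
    by_contra hcon
    push Not at hcon
    apply ha
    rw [← addOrderOf_dvd_iff_nsmul_eq_zero, hM]
    exact pow_dvd_pow p hcon.le
  have hy : p ^ N • (p ^ (M - N) • a) = 0 := by
    rw [← mul_smul, ← pow_add, Nat.add_sub_cancel' hNM, ← hM]
    exact addOrderOf_nsmul_eq_zero a
  refine ⟨zl (p ^ N) (p ^ (M - N) • a) hy, zl_injective _ _ _ ?_⟩
  intro m hm
  have h1 : (m * (p ^ (M - N) : ℕ)) • a = 0 := by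
    rw [mul_smul, natCast_zsmul]
    exact hm
  rw [← addOrderOf_dvd_iff_zsmul_eq_zero, hM] at h1
  have h2 : ((p ^ M : ℕ) : ℤ) = (p ^ N : ℕ) * (p ^ (M - N) : ℕ) := by
    rw [← Nat.cast_mul, ← pow_add, Nat.add_sub_cancel' hNM]
  rw [h2] at h1
  have h3 : ((p ^ (M - N) : ℕ) : ℤ) ≠ 0 := by
    have := pow_pos hp.pos (M - N)
    exact_mod_cast this.ne'
  exact (mul_dvd_mul_iff_right h3).1 h1


/-- The main step: a homomorphism that does not die on elements of finite height makes the
socle complete. -/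
theorem complete_aux (p : ℕ) (hp : p.Prime) (hpg : ∀ a : A, ∃ n : ℕ, p ^ n • a = 0)
    (hunb : ∀ n : ℕ, ∃ a : A, p ^ n • a ≠ 0)
    (F : (ℕ → AddMonoid.End A) → A)
    (hadd : ∀ g h : ℕ → AddMonoid.End A, F (fun n => g n + h n) = F g + F h)
    (hmul : ∀ (φ : AddMonoid.End A) (g : ℕ → AddMonoid.End A), F (fun n => φ * g n) = φ (F g))
    (a : ℕ → A) (hsingle : ∀ (n : ℕ) (φ : AddMonoid.End A), F (Pi.single n φ) = φ (a n))
    (Nf : ℕ → ℕ) (hN : ∀ n, ¬ ∃ b : A, p ^ Nf n • b = a n)
    (s : ℕ → A) (hs : ∀ n, p • s n = 0) (hc : Cau p s) : ∃ w, Tends p s w := by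
  classical
  have hF0 : F (fun _ => 0) = 0 := by
    have h1 := hadd (fun _ => 0) (fun _ => 0)
    simp only [add_zero] at h1
    exact left_eq_add.1 h1
  -- heights
  obtain ⟨h, hNh, hKh, hmono⟩ : ∃ h : ℕ → ℕ, (∀ k, Nf k ≤ h k) ∧ (∀ k, k ≤ h k) ∧
      ∀ k l, k ≤ l → h k ≤ h l := by
    refine ⟨fun k => k + ∑ i ∈ Finset.range (k + 1), Nf i, ?_, ?_, ?_⟩
    · intro k
      have : Nf k ≤ ∑ i ∈ Finset.range (k + 1), Nf i :=
        Finset.single_le_sum (f := Nf) (fun _ _ => Nat.zero_le _)
          (Finset.mem_range.2 (Nat.lt_succ_self k))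
      show Nf k ≤ k + _
      omega
    · intro k
      exact Nat.le_add_right _ _
    · intro k l hkl
      apply add_le_add hkl
      apply Finset.sum_le_sum_of_subset
      apply Finset.range_mono
      omega
  have hdet : ∀ k, ∃ χ : A →+ ZMod (p ^ (h k + 1)),
      χ (a k) = ((p ^ h k : ℕ) : ZMod (p ^ (h k + 1))) := fun k =>
    exists_detect_pow p hp (Nf k) (h k) (hNh k) (a k) (hN k)
  choose χ hχ using hdet
  choose M hM using hc
  obtain ⟨σ, hσ, hσmono⟩ : ∃ σ : ℕ → ℕ, (∀ k, M (2 * h k) ≤ σ k) ∧ ∀ k l, k ≤ l → σ k ≤ σ l := by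
    refine ⟨fun k => ∑ i ∈ Finset.range (k + 1), M (2 * h i), ?_, ?_⟩
    · intro k
      exact Finset.single_le_sum (f := fun i => M (2 * h i)) (fun _ _ => Nat.zero_le _)
          (Finset.mem_range.2 (Nat.lt_succ_self k))
    · intro k l hkl
      apply Finset.sum_le_sum_of_subset
      apply Finset.range_mono
      omega
  have hx : ∀ k, ∃ x : A, p ^ (2 * h k) • x = s (σ (k + 1)) - s (σ k) := fun k =>
    hM (2 * h k) _ (le_trans (hσ k) (hσmono _ _ (Nat.le_succ k))) _ (hσ k)
  choose x hx using hx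
  have hy : ∀ k, p ^ (h k + 1) • (p ^ h k • x k) = 0 := by
    intro k
    rw [← mul_smul, ← pow_add]
    have e1 : h k + 1 + h k = 1 + 2 * h k := by omega
    rw [e1, pow_add, pow_one, mul_smul, hx, smul_sub, hs, hs, sub_zero]
  let g : ℕ → AddMonoid.End A := fun k => (zl (p ^ (h k + 1)) (p ^ h k • x k) (hy k)).comp (χ k)
  have hg : ∀ k z, ∃ m : ℤ, g k z = p ^ h k • (m • x k) := by
    intro k z
    obtain ⟨m, hm⟩ := ZMod.intCast_surjective (χ k z)
    refine ⟨m, ?_⟩
    show zl _ _ (hy k) (χ k z) = _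
    rw [← hm, zl_int, smul_comm]
  have hga : ∀ k, g k (a k) = s (σ (k + 1)) - s (σ k) := by
    intro k
    show zl _ _ (hy k) (χ k (a k)) = _
    have e1 : ((p ^ h k : ℕ) : ZMod (p ^ (h k + 1))) =
        (((p ^ h k : ℕ) : ℤ) : ZMod (p ^ (h k + 1))) := by push_cast; rfl
    rw [hχ, e1, zl_int, natCast_zsmul, ← mul_smul, ← pow_add, ← hx]
    congr 2
    omega
  let tail : ℕ → ℕ → AddMonoid.End A := fun K k => if K ≤ k then g k else 0
  have htail0 : tail 0 = g := by
    funext k
    simp [tail]
  have htail : ∀ K, F (tail K) = g K (a K) + F (tail (K + 1)) := by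
    intro K
    rw [← hsingle, ← hadd]
    congr 1
    funext k
    rcases lt_trichotomy k K with hk | hk | hk
    · rw [Pi.single_eq_of_ne hk.ne]
      simp only [tail]
      rw [if_neg (by omega), if_neg (by omega), add_zero]
    · subst hk
      rw [Pi.single_eq_same]
      simp only [tail]
      rw [if_pos (le_refl _), if_neg (by omega), add_zero]
    · rw [Pi.single_eq_of_ne hk.ne']
      simp only [tail]
      rw [if_pos (by omega), if_pos (by omega), zero_add]
  have hsum : ∀ K, F g = s (σ K) - s (σ 0) + F (tail K) := by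
    intro K
    induction K with
    | zero => rw [htail0, sub_self, zero_add]
    | succ K ih =>
      rw [ih, htail, hga]
      abel
  have hdiv : ∀ K, ∃ b : A, p ^ h K • b = F (tail K) := by
    intro K
    by_contra hcon
    obtain ⟨χ', hχ'⟩ := exists_detect (p ^ h K) (pow_pos hp.pos _) _ hcon
    obtain ⟨j, hj⟩ := exists_order p hp hpg hunb (h K)
    let ψ : AddMonoid.End A := j.comp χ'
    have h1 := hmul ψ (tail K)
    have h2 : (fun n => ψ * tail K n) = fun _ => 0 := by
      funext k
      ext z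
      show j (χ' (tail K k z)) = 0
      simp only [tail]
      split_ifs with hk
      · obtain ⟨m, hm⟩ := hg k z
        rw [hm, map_nsmul]
        have e2 : h k = h K + (h k - h K) := by
          have := hmono K k hk
          omega
        have e3 : p ^ h k • χ' (m • x k) = 0 := by
          rw [e2, pow_add, mul_smul, nsmul_eq_mul, ZMod.natCast_self, zero_mul]
        rw [e3, map_zero]
      · have e4 : (0 : AddMonoid.End A) z = 0 := rfl
        rw [e4, map_zero, map_zero]
    rw [h2, hF0] at h1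
    have h3 : j (χ' (F (tail K))) = 0 := h1.symm
    rw [← map_zero j] at h3
    exact hχ' (hj h3)
  refine ⟨s (σ 0) + F g, ?_⟩
  intro m
  refine ⟨σ m, ?_⟩
  intro i hi
  obtain ⟨b1, hb1⟩ := hM (2 * h m) i (le_trans (hσ m) hi) (σ m) (hσ m)
  obtain ⟨b2, hb2⟩ := hdiv m
  have e5 : p ^ (2 * h m) • b1 = p ^ m • (p ^ (2 * h m - m) • b1) := by
    rw [← mul_smul, ← pow_add]
    congr 2
    have := hKh m
    omega
  have e6 : p ^ h m • b2 = p ^ m • (p ^ (h m - m) • b2) := by
    rw [← mul_smul, ← pow_add]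
    congr 2
    have := hKh m
    omega
  refine ⟨p ^ (2 * h m - m) • b1 - p ^ (h m - m) • b2, ?_⟩
  rw [smul_sub, ← e5, ← e6, hb1, hb2, hsum m]
  abel

/-- A sequence tending to `0` can be divided by powers of `p` with exponents tending to
infinity. -/
theorem exists_rate (p : ℕ) (x : ℕ → A)
    (hx : ∀ m : ℕ, ∃ N : ℕ, ∀ i ≥ N, ∃ b : A, p ^ m • b = x i) :
    ∃ (μ : ℕ → ℕ) (z : ℕ → A), (∀ n, p ^ μ n • z n = x n) ∧
      ∀ m : ℕ, ∃ N : ℕ, ∀ i ≥ N, m ≤ μ i := by
  classical
  let P : ℕ → ℕ → Prop := fun n m => ∃ b : A, p ^ m • b = x n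
  have h0 : ∀ n, P n 0 := fun n => ⟨x n, by rw [pow_zero, one_smul]⟩
  have h1 : ∀ n, P n (Nat.findGreatest (P n) n) := fun n =>
    Nat.findGreatest_spec (Nat.zero_le n) (h0 n)
  choose z hz using h1
  refine ⟨fun n => Nat.findGreatest (P n) n, z, hz, ?_⟩
  intro m
  obtain ⟨N, hN⟩ := hx m
  refine ⟨max m N, fun i hi => ?_⟩
  apply Nat.le_findGreatest (le_trans (le_max_left _ _) hi)
  exact hN i (le_trans (le_max_right _ _) hi)

/-- From the socle to all bounded orders, modulo the elements of infinite height. -/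
theorem complete_all (p : ℕ)
    (h1 : ∀ s : ℕ → A, (∀ n, p • s n = 0) → Cau p s → ∃ w, Tends p s w) :
    ∀ (k : ℕ) (s : ℕ → A), (∀ n, p ^ k • s n ∈ infHeight p A) → Cau p s →
      ∃ w, Tends p s w := by
  intro k
  induction k with
  | zero =>
    intro s hs _
    refine ⟨0, fun m => ⟨0, fun i _ => ?_⟩⟩
    rw [sub_zero]
    have := hs i
    rw [pow_zero, one_smul] at this
    exact this m
  | succ k ih =>
    intro s hs hc
    -- r = p^k s
    have happ : ∀ n, ∃ x : A, p ^ (n + 1) • x = p • (p ^ k • s n) := by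
      intro n
      obtain ⟨b, hb⟩ := hs n (n + 1)
      refine ⟨b, ?_⟩
      rw [hb, pow_succ', mul_smul]
    choose x hx using happ
    have hr0 : ∀ n, p • (p ^ k • s n - p ^ n • x n) = 0 := by
      intro n
      rw [smul_sub, ← hx, pow_succ', mul_smul, sub_self]
    have hrc : Cau p (fun n => p ^ k • s n - p ^ n • x n) := by
      intro m
      obtain ⟨N, hN⟩ := hc m
      refine ⟨max m N, fun i hi j hj => ?_⟩
      obtain ⟨b, hb⟩ := hN i (le_trans (le_max_right _ _) hi) j (le_trans (le_max_right _ _) hj)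
      have hmi : m ≤ i := le_trans (le_max_left _ _) hi
      have hmj : m ≤ j := le_trans (le_max_left _ _) hj
      refine ⟨p ^ k • b - p ^ (i - m) • x i + p ^ (j - m) • x j, ?_⟩
      rw [smul_add, smul_sub, ← mul_smul, ← mul_smul, ← mul_smul, ← pow_add, ← pow_add,
        ← pow_add, Nat.add_sub_cancel' hmi, Nat.add_sub_cancel' hmj, add_comm m k, pow_add,
        mul_smul, hb, smul_sub]
      beta_reduce
      abel
    obtain ⟨t, ht⟩ := h1 _ hr0 hrc
    -- r tends to t
    have hrt : ∀ m : ℕ, ∃ N : ℕ, ∀ i ≥ N, ∃ b : A, p ^ m • b = p ^ k • s i - t := by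
      intro m
      obtain ⟨N, hN⟩ := ht m
      refine ⟨max m N, fun i hi => ?_⟩
      obtain ⟨b, hb⟩ := hN i (le_trans (le_max_right _ _) hi)
      have hmi : m ≤ i := le_trans (le_max_left _ _) hi
      refine ⟨b + p ^ (i - m) • x i, ?_⟩
      rw [smul_add, hb, ← mul_smul, ← pow_add, Nat.add_sub_cancel' hmi]
      beta_reduce
      abel
    obtain ⟨u, hu⟩ : ∃ u : A, p ^ k • u = t := by
      obtain ⟨N, hN⟩ := hrt k
      obtain ⟨b, hb⟩ := hN N le_rfl
      refine ⟨s N - b, ?_⟩
      rw [smul_sub, hb]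
      abel
    have hru : ∀ m : ℕ, ∃ N : ℕ, ∀ i ≥ N, ∃ b : A, p ^ m • b = p ^ k • (s i - u) := by
      intro m
      obtain ⟨N, hN⟩ := hrt m
      refine ⟨N, fun i hi => ?_⟩
      obtain ⟨b, hb⟩ := hN i hi
      exact ⟨b, by rw [hb, smul_sub, hu]⟩
    obtain ⟨μ, z, hz, hμ⟩ := exists_rate p _ hru
    -- correct s
    let c : ℕ → A := fun n => if k ≤ μ n then p ^ (μ n - k) • z n else s n - u
    have hck : ∀ n, p ^ k • (s n - u - c n) = 0 := by
      intro n
      simp only [c]
      split_ifs with h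
      · rw [smul_sub, ← hz n, ← mul_smul, ← pow_add, Nat.add_sub_cancel' h, sub_self]
      · rw [sub_self, smul_zero]
    have hc0 : ∀ m : ℕ, ∃ N : ℕ, ∀ i ≥ N, ∃ b : A, p ^ m • b = c i := by
      intro m
      obtain ⟨N, hN⟩ := hμ (k + m)
      refine ⟨N, fun i hi => ?_⟩
      have h3 := hN i hi
      simp only [c]
      rw [if_pos (by omega)]
      refine ⟨p ^ (μ i - k - m) • z i, ?_⟩
      rw [← mul_smul, ← pow_add]
      congr 2
      omega
    have hcc : Cau p (fun n => s n - u - c n) := by
      intro m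
      obtain ⟨N1, hN1⟩ := hc m
      obtain ⟨N2, hN2⟩ := hc0 m
      refine ⟨max N1 N2, fun i hi j hj => ?_⟩
      obtain ⟨b, hb⟩ := hN1 i (le_trans (le_max_left _ _) hi) j (le_trans (le_max_left _ _) hj)
      obtain ⟨b1, hb1⟩ := hN2 i (le_trans (le_max_right _ _) hi)
      obtain ⟨b2, hb2⟩ := hN2 j (le_trans (le_max_right _ _) hj)
      refine ⟨b - b1 + b2, ?_⟩
      rw [smul_add, smul_sub, hb, hb1, hb2]
      beta_reduce
      abel
    obtain ⟨v, hv⟩ := ih _ (fun n => by
      rw [hck n]
      exact (infHeight p A).zero_mem) hcc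
    refine ⟨u + v, ?_⟩
    intro m
    obtain ⟨N1, hN1⟩ := hv m
    obtain ⟨N2, hN2⟩ := hc0 m
    refine ⟨max N1 N2, fun i hi => ?_⟩
    obtain ⟨b1, hb1⟩ := hN1 i (le_trans (le_max_left _ _) hi)
    obtain ⟨b2, hb2⟩ := hN2 i (le_trans (le_max_right _ _) hi)
    refine ⟨b1 + b2, ?_⟩
    rw [smul_add, hb1, hb2]
    beta_reduce
    abel


/-- Restriction to a subfamily of the coordinates. -/
theorem exists_restrict {R M : Type u} [Ring R] [AddCommGroup M] [Module R M]
    (f : (ℕ → R) →ₗ[R] M) (e : ℕ → ℕ) (he : Injective e) :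
    ∃ f' : (ℕ → R) →ₗ[R] M, ∀ n, f' (Pi.single n 1) = f (Pi.single (e n) 1) := by
  refine ⟨f ∘ₗ Function.ExtendByZero.linearMap R e, ?_⟩
  intro n
  rw [LinearMap.comp_apply]
  congr 1
  funext k
  rw [Function.ExtendByZero.linearMap_apply]
  by_cases hk : ∃ i, e i = k
  · obtain ⟨i, rfl⟩ := hk
    rw [he.extend_apply]
    rcases eq_or_ne i n with rfl | hi
    · rw [Pi.single_eq_same, Pi.single_eq_same]
    · rw [Pi.single_eq_of_ne hi, Pi.single_eq_of_ne (fun h => hi (he h))]
  · rw [Function.extend_apply' _ _ _ hk, Pi.single_eq_of_ne (fun h => hk ⟨n, h.symm⟩)]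
    rfl

/-- If some homomorphism does not send almost all `e_n` to elements of infinite height, then
`A` modulo its elements of infinite height is torsion-complete. -/
theorem complete_of_infinite (p : ℕ) (hp : p.Prime) (hpg : ∀ a : A, ∃ n : ℕ, p ^ n • a = 0)
    (f : (ℕ → AddMonoid.End A) → A)
    (hf : ∃ f' : @LinearMap (AddMonoid.End A) (AddMonoid.End A) _ _ (RingHom.id _)
      (ℕ → AddMonoid.End A) A _ _ (Pi.module _ _ _) _, ∀ x, f' x = f x)
    (hinf : {n : ℕ | f (Pi.single n 1) ∉ infHeight p A}.Infinite) :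
    ∀ (k : ℕ) (s : ℕ → A), (∀ n, p ^ k • s n ∈ infHeight p A) → Cau p s →
      ∃ w, Tends p s w := by
  by_cases hb : ∃ n : ℕ, ∀ a : A, p ^ n • a = 0
  · obtain ⟨n, hn⟩ := hb
    intro k s _ hc
    obtain ⟨N, hN⟩ := hc n
    refine ⟨s N, fun m => ⟨N, fun i hi => ⟨0, ?_⟩⟩⟩
    obtain ⟨b, hb⟩ := hN i hi N le_rfl
    rw [← hb, hn, smul_zero]
  · push Not at hb
    obtain ⟨f', hf'⟩ := hf
    apply complete_all
    intro s hs hc
    obtain ⟨e, he⟩ : ∃ e : ℕ → ℕ, Injective e ∧
        ∀ n, f (Pi.single (e n) 1) ∉ infHeight p A := by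
      refine ⟨fun n => (hinf.natEmbedding _ n : ℕ), ?_, ?_⟩
      · intro a b hab
        exact (hinf.natEmbedding _).injective (Subtype.ext hab)
      · intro n
        exact (hinf.natEmbedding _ n).2
    obtain ⟨f2, hf2⟩ := exists_restrict f' e he.1
    have hN : ∀ n, ∃ N : ℕ, ¬ ∃ b : A, p ^ N • b = f2 (Pi.single n 1) := by
      intro n
      by_contra hcon
      push Not at hcon
      apply he.2 n
      intro N
      obtain ⟨b, hb⟩ := hcon N
      refine ⟨b, ?_⟩
      rw [hb, hf2, hf']
    choose Nf hNf using hN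
    exact complete_aux p hp hpg hb (fun g => f2 g) (fun g h => map_add f2 g h)
      (fun φ g => map_mul_gen f2 φ g) (fun n => f2 (Pi.single n 1))
      (fun n φ => map_single_gen f2 n φ) Nf hNf s hs hc

/-- Enough homomorphisms to a cogenerator that occurs infinitely often inside `A`. -/
theorem key_slender {C : Type} [AddCommGroup C] (j : C →+ AddCircle (1 : ℚ)) (hj : Injective j)
    (hfac : ∀ (c : A →+ AddCircle (1 : ℚ)) (x : A), ∃ m, j m = c x)
    (ι : (ℕ →₀ C) →+ A) (hι : Injective ι) : ESlender A := by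
  classical
  intro f
  by_contra hinf
  rw [Set.not_finite] at hinf
  -- detection
  have hdet : ∀ a : A, ∃ χ : A →+ C, a ≠ 0 → χ a ≠ 0 := by
    intro a
    by_cases ha : a = 0
    · exact ⟨0, fun h => absurd ha h⟩
    · obtain ⟨c, hc⟩ := CharacterModule.exists_character_apply_ne_zero_of_ne_zero ha
      obtain ⟨χ, hχ⟩ := exists_factor j hj (c : A →+ AddCircle (1 : ℚ)) (hfac c)
      refine ⟨χ, fun _ h0 => hc ?_⟩
      have := hχ a
      rw [h0, map_zero] at this
      exact this.symm
  choose χ hχ using fun n => hdet (f (Pi.single n 1))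
  let ψ : ℕ → AddMonoid.End A := fun n => (ι.comp (Finsupp.singleAddHom n)).comp (χ n)
  have hψ : ∀ n x, ψ n x = ι (Finsupp.single n (χ n x)) := fun n x => rfl
  have hmul : ∀ (φ : AddMonoid.End A) (g : ℕ → AddMonoid.End A),
      f (fun n => φ * g n) = φ (f g) := fun φ g => map_mul_gen f φ g
  have hsingle : ∀ (n : ℕ) (φ : AddMonoid.End A),
      f (Pi.single n φ) = φ (f (Pi.single n 1)) := fun n φ => map_single_gen f n φ
  have hf0 : f (fun _ => 0) = 0 := map_zero f
  -- f ψ lies in the range
  have hmem : f ψ ∈ ι.range := by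
    by_contra hcon
    have hne : (QuotientAddGroup.mk (f ψ) : A ⧸ ι.range) ≠ 0 := by
      intro h
      rw [QuotientAddGroup.eq_zero_iff] at h
      exact hcon h
    obtain ⟨c, hc⟩ := CharacterModule.exists_character_apply_ne_zero_of_ne_zero hne
    let c' : A →+ AddCircle (1 : ℚ) :=
      (show (A ⧸ ι.range) →+ AddCircle (1 : ℚ) from c).comp (QuotientAddGroup.mk' _)
    obtain ⟨χ', hχ'⟩ := exists_factor j hj c' (hfac c')
    let Φ : AddMonoid.End A := (ι.comp (Finsupp.singleAddHom 0)).comp χ'
    have h1 := hmul Φ ψ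
    have h2 : (fun n => Φ * ψ n) = fun _ => 0 := by
      funext n
      ext x
      show ι (Finsupp.single 0 (χ' (ι (Finsupp.single n (χ n x))))) = 0
      have h3 : χ' (ι (Finsupp.single n (χ n x))) = 0 := by
        apply hj
        rw [hχ', map_zero]
        show c (QuotientAddGroup.mk (ι (Finsupp.single n (χ n x)))) = 0
        have h0 : (QuotientAddGroup.mk (ι (Finsupp.single n (χ n x))) : A ⧸ ι.range) = 0 := by
          rw [QuotientAddGroup.eq_zero_iff]
          exact ⟨_, rfl⟩
        rw [h0, map_zero]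
      rw [h3, Finsupp.single_zero, map_zero]
    rw [h2, hf0] at h1
    have h4 : ι (Finsupp.single 0 (χ' (f ψ))) = 0 := h1.symm
    rw [← map_zero ι] at h4
    have h5 := hι h4
    rw [Finsupp.single_eq_zero] at h5
    apply hc
    have h6 := hχ' (f ψ)
    rw [h5, map_zero] at h6
    exact h6.symm
  obtain ⟨u, hu⟩ := hmem
  obtain ⟨n, hn, hnu⟩ : ∃ n, f (Pi.single n 1) ≠ 0 ∧ n ∉ u.support := by
    obtain ⟨n, hn1, hn2⟩ := (hinf.sdiff (Finset.finite_toSet u.support)).nonempty
    exact ⟨n, hn1, hn2⟩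
  -- extend the n-th coordinate
  obtain ⟨c, hc⟩ := (Module.Baer.of_divisible (AddCircle (1 : ℚ))).extension_property_addMonoidHom
    ι hι (j.comp (Finsupp.applyAddHom n))
  obtain ⟨χ', hχ'⟩ := exists_factor j hj c (hfac c)
  have hχι : ∀ v : ℕ →₀ C, χ' (ι v) = v n := by
    intro v
    apply hj
    rw [hχ']
    exact DFunLike.congr_fun hc v
  let Φ : AddMonoid.End A := (ι.comp (Finsupp.singleAddHom n)).comp χ'
  have h1 := hmul Φ ψ
  have h2 : (fun m => Φ * ψ m) = Pi.single n (ψ n) := by
    funext m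
    rcases eq_or_ne m n with rfl | hm
    · rw [Pi.single_eq_same]
      ext x
      show ι (Finsupp.single m (χ' (ι (Finsupp.single m (χ m x))))) = ι (Finsupp.single m (χ m x))
      rw [hχι, Finsupp.single_eq_same]
    · rw [Pi.single_eq_of_ne hm]
      ext x
      show ι (Finsupp.single n (χ' (ι (Finsupp.single m (χ m x))))) = 0
      rw [hχι, Finsupp.single_eq_of_ne (Ne.symm hm), Finsupp.single_zero, map_zero]
  rw [h2, hsingle, hψ] at h1
  have h3 : Φ (f ψ) = 0 := by
    show ι (Finsupp.single n (χ' (f ψ))) = 0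
    rw [← hu, hχι, Finsupp.notMem_support_iff.1 hnu, Finsupp.single_zero, map_zero]
  rw [h3, ← map_zero ι] at h1
  have h4 := hι h1
  rw [Finsupp.single_eq_zero] at h4
  exact hχ n hn h4

/-- An infinite elementary abelian group contains an infinite independent sequence. -/
theorem exists_indep_type (p : ℕ) (hp : p.Prime) (V : Type u) [AddCommGroup V]
    [Module (ZMod p) V] [Infinite V] :
    ∃ s : ℕ → V, ∀ (t : Finset ℕ) (m : ℕ → ℤ),
      ∑ n ∈ t, m n • s n = 0 → ∀ n ∈ t, (p : ℤ) ∣ m n := by
  classical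
  have : Fact p.Prime := ⟨hp⟩
  let b := Module.Basis.ofVectorSpace (ZMod p) V
  have hι : Infinite (Module.Basis.ofVectorSpaceIndex (ZMod p) V) := by
    by_contra hcon
    rw [not_infinite_iff_finite] at hcon
    have h1 : Module.Finite (ZMod p) V := Module.Finite.of_basis b
    have h2 : Finite V := Module.finite_of_finite (ZMod p)
    exact not_finite V
  let e := Infinite.natEmbedding (Module.Basis.ofVectorSpaceIndex (ZMod p) V)
  refine ⟨fun n => b (e n), ?_⟩
  intro t m hsum n hn
  have hli := b.linearIndependent.comp e e.injective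
  rw [linearIndependent_iff'] at hli
  have h3 : ∑ n ∈ t, ((m n : ℤ) : ZMod p) • (b ∘ e) n = 0 := by
    have h4 : ∀ k, (((m k : ℤ) : ZMod p) • (b ∘ e) k : V) = m k • (b ∘ e) k := by
      intro k
      exact Int.cast_smul_eq_zsmul (ZMod p) (m k) _
    simp only [h4]
    exact hsum
  have h7 := hli t _ h3 n hn
  rwa [ZMod.intCast_zmod_eq_zero_iff_dvd] at h7

/-- An infinite elementary abelian subgroup contains an infinite independent sequence. -/
theorem exists_indep (p : ℕ) (hp : p.Prime) (H : AddSubgroup A) (hH : ∀ x ∈ H, p • x = 0)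
    (hinf : (H : Set A).Infinite) :
    ∃ s : ℕ → A, (∀ n, s n ∈ H) ∧ ∀ (t : Finset ℕ) (m : ℕ → ℤ),
      ∑ n ∈ t, m n • s n = 0 → ∀ n ∈ t, (p : ℤ) ∣ m n := by
  have : Infinite H := hinf.to_subtype
  let : Module (ZMod p) H :=
    AddCommGroup.zmodModule (n := p) (G := H) (fun x => Subtype.ext (hH x x.2))
  obtain ⟨s, hs⟩ := exists_indep_type p hp H
  refine ⟨fun n => (s n : A), fun n => (s n).2, ?_⟩
  intro t m hsum n hn
  apply hs t m _ n hn
  apply Subtype.ext
  have h5 : H.subtype (∑ n ∈ t, m n • s n) = ∑ n ∈ t, m n • (s n : A) := by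
    rw [map_sum]
    rfl
  have h6 : H.subtype (∑ n ∈ t, m n • s n) = 0 := by rw [h5]; exact hsum
  exact h6

/-- A homomorphism from a direct sum is injective when it is injective on the socle. -/
theorem inj_of_indep (p : ℕ) {C : Type} [AddCommGroup C]
    (hC : ∀ x : C, ∃ n : ℕ, p ^ n • x = 0) (e : C) (hpe : p • e = 0)
    (he : ∀ x : C, p • x = 0 → ∃ m : ℤ, x = m • e) (ι : ℕ → (C →+ A)) (s : ℕ → A)
    (hs : ∀ n, ι n e = s n)
    (hind : ∀ (t : Finset ℕ) (m : ℕ → ℤ), ∑ n ∈ t, m n • s n = 0 → ∀ n ∈ t, (p : ℤ) ∣ m n) :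
    Injective (Finsupp.liftAddHom ι : (ℕ →₀ C) →+ A) := by
  classical
  rw [injective_iff_map_eq_zero]
  intro u hu
  by_contra hu0
  have hN : ∀ u : ℕ →₀ C, ∃ n : ℕ, p ^ n • u = 0 := by
    intro u
    induction u using Finsupp.induction_linear with
    | zero => exact ⟨0, smul_zero _⟩
    | add f g hf hg =>
      obtain ⟨a, ha⟩ := hf
      obtain ⟨b, hb⟩ := hg
      refine ⟨a + b, ?_⟩
      rw [smul_add]
      have e1 : p ^ (a + b) • f = 0 := by
        rw [add_comm, pow_add, mul_smul, ha, smul_zero]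
      have e2 : p ^ (a + b) • g = 0 := by
        rw [pow_add, mul_smul, hb, smul_zero]
      rw [e1, e2, add_zero]
    | single n c =>
      obtain ⟨a, ha⟩ := hC c
      refine ⟨a, ?_⟩
      rw [Finsupp.smul_single, ha, Finsupp.single_zero]
  obtain ⟨k, hk0, hkmin⟩ : ∃ k, p ^ k • u = 0 ∧ ∀ i, p ^ i • u = 0 → k ≤ i :=
    ⟨Nat.find (hN u), Nat.find_spec (hN u), fun i hi => Nat.find_min' (hN u) hi⟩
  have hk1 : k ≠ 0 := by
    rintro rfl
    rw [pow_zero, one_smul] at hk0
    exact hu0 hk0
  set v : ℕ →₀ C := p ^ (k - 1) • u with hv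
  have hv0 : v ≠ 0 := by
    intro h
    have := hkmin _ h
    omega
  have hpv : p • v = 0 := by
    rw [hv, ← mul_smul, ← pow_succ', Nat.sub_add_cancel (by omega)]
    exact hk0
  have hLv : (Finsupp.liftAddHom ι : (ℕ →₀ C) →+ A) v = 0 := by
    rw [hv, map_nsmul, hu, smul_zero]
  have hcoord : ∀ n, ∃ m : ℤ, v n = m • e := by
    intro n
    apply he
    have := DFunLike.congr_fun hpv n
    simpa using this
  choose m hm using hcoord
  rw [Finsupp.liftAddHom_apply, Finsupp.sum] at hLv
  have h1 : ∑ n ∈ v.support, m n • s n = 0 := by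
    rw [← hLv]
    apply Finset.sum_congr rfl
    intro n _
    rw [hm, map_zsmul, hs]
  have h2 := hind _ _ h1
  apply hv0
  ext n
  by_cases hn : n ∈ v.support
  · obtain ⟨d, hd⟩ := h2 n hn
    rw [hm, hd, mul_comm, mul_smul, natCast_zsmul, hpe, smul_zero]
    rfl
  · exact Finsupp.notMem_support_iff.1 hn


/-- Bounded groups with infinite top. -/
theorem slender_of_bounded (p : ℕ) (hp : p.Prime) (k : ℕ) (hb : ∀ a : A, p ^ (k + 1) • a = 0)
    (hinf : {x : A | ∃ y : A, p ^ k • y = x}.Infinite) : ESlender A := by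
  obtain ⟨j, hj, hjr⟩ := exists_embed (p ^ (k + 1)) (pow_pos hp.pos _)
  have hfac : ∀ (c : A →+ AddCircle (1 : ℚ)) (x : A), ∃ m, j m = c x := by
    intro c x
    apply hjr
    rw [← map_nsmul, hb, map_zero]
  obtain ⟨s, hsH, hind⟩ := exists_indep p hp (mulRange (p ^ k) A) (by
    intro x hx
    obtain ⟨y, hy⟩ := (mem_mulRange _ x).1 hx
    rw [← hy, ← mul_smul, ← pow_succ', hb]) hinf
  choose c hc using fun n => (mem_mulRange _ _).1 (hsH n)
  apply key_slender j hj hfac (Finsupp.liftAddHom fun n => zl (p ^ (k + 1)) (c n) (hb (c n)))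
  apply inj_of_indep p _ (((p ^ k : ℕ) : ℤ) : ZMod (p ^ (k + 1))) _ _ _ s _ hind
  · intro x
    refine ⟨k + 1, ?_⟩
    rw [nsmul_eq_mul, ZMod.natCast_self, zero_mul]
  · rw [nsmul_eq_mul]
    have : ((p : ℕ) : ZMod (p ^ (k + 1))) * (((p ^ k : ℕ) : ℤ) : ZMod (p ^ (k + 1))) =
        ((p ^ (k + 1) : ℕ) : ZMod (p ^ (k + 1))) := by
      push_cast
      ring
    rw [this, ZMod.natCast_self]
  · intro x hx
    obtain ⟨m, rfl⟩ := ZMod.intCast_surjective x
    rw [nsmul_eq_mul] at hx
    have h1 : (((p : ℤ) * m : ℤ) : ZMod (p ^ (k + 1))) = 0 := by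
      push_cast
      exact hx
    rw [ZMod.intCast_zmod_eq_zero_iff_dvd] at h1
    have h2 : ((p ^ (k + 1) : ℕ) : ℤ) = (p : ℤ) * ((p ^ k : ℕ) : ℤ) := by
      push_cast
      ring
    rw [h2] at h1
    have hp0 : (p : ℤ) ≠ 0 := by exact_mod_cast hp.ne_zero
    obtain ⟨d, hd⟩ := (mul_dvd_mul_iff_left hp0).1 h1
    refine ⟨d, ?_⟩
    rw [hd, zsmul_eq_mul]
    push_cast
    ring
  · intro n
    rw [zl_int, natCast_zsmul, hc]

theorem divPart_divisible (n : ℕ) (hn : n ≠ 0) (x : A) (hx : x ∈ divPart A) :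
    ∃ y ∈ divPart A, n • y = x := by
  unfold divPart at hx
  rw [sSup_eq_iSup'] at hx
  refine AddSubgroup.iSup_induction _ (C := fun x => ∃ y ∈ divPart A, n • y = x) hx ?_ ?_ ?_
  · rintro ⟨H, hH⟩ x hx
    obtain ⟨y, hyH, hy⟩ := hH n hn x hx
    exact ⟨y, (le_sSup hH : H ≤ divPart A) hyH, hy⟩
  · exact ⟨0, AddSubgroup.zero_mem _, smul_zero _⟩
  · rintro x y ⟨x', hx', hx⟩ ⟨y', hy', hy⟩
    exact ⟨x' + y', AddSubgroup.add_mem _ hx' hy', by rw [smul_add, hx, hy]⟩

theorem divPart_invariant (φ : AddMonoid.End A) (x : A) (hx : x ∈ divPart A) :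
    φ x ∈ divPart A := by
  unfold divPart at hx
  rw [sSup_eq_iSup'] at hx
  refine AddSubgroup.iSup_induction _ (C := fun x => φ x ∈ divPart A) hx ?_ ?_ ?_
  · rintro ⟨H, hH⟩ x hx
    have h1 : AddSubgroup.map φ H ≤ divPart A := by
      apply le_sSup
      intro n hn y hy
      obtain ⟨z, hz, rfl⟩ := hy
      obtain ⟨w, hw, hwz⟩ := hH n hn z hz
      refine ⟨φ w, ⟨w, hw, rfl⟩, ?_⟩
      rw [← map_nsmul, hwz]
      rfl
    exact h1 ⟨x, hx, rfl⟩
  · rw [map_zero]
    exact AddSubgroup.zero_mem _
  · intro x y hx hy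
    rw [map_add]
    exact AddSubgroup.add_mem _ hx hy

/-- The socle of the divisible part. -/
def socDiv (p : ℕ) (A : Type u) [AddCommGroup A] : AddSubgroup A where
  carrier := {x | x ∈ divPart A ∧ p • x = 0}
  zero_mem' := ⟨AddSubgroup.zero_mem _, smul_zero _⟩
  add_mem' := fun {a b} ha hb =>
    ⟨AddSubgroup.add_mem _ ha.1 hb.1, by rw [smul_add, ha.2, hb.2, add_zero]⟩
  neg_mem' := fun {a} ha => ⟨AddSubgroup.neg_mem _ ha.1, by rw [smul_neg, ha.2, neg_zero]⟩

/-- The `p`-primary component of `ℚ/ℤ`. -/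
def primary (p : ℕ) : AddSubgroup (AddCircle (1 : ℚ)) where
  carrier := {x | ∃ n : ℕ, p ^ n • x = 0}
  zero_mem' := ⟨0, smul_zero _⟩
  add_mem' := fun {f g} hf hg => by
    obtain ⟨a, ha⟩ := hf
    obtain ⟨b, hb⟩ := hg
    refine ⟨a + b, ?_⟩
    have e1 : p ^ (a + b) • f = 0 := by
      rw [add_comm, pow_add, mul_smul, ha, smul_zero]
    have e2 : p ^ (a + b) • g = 0 := by
      rw [pow_add, mul_smul, hb, smul_zero]
    rw [smul_add, e1, e2, add_zero]
  neg_mem' := fun {f} hf => by
    obtain ⟨a, ha⟩ := hf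
    exact ⟨a, by rw [smul_neg, ha, neg_zero]⟩

/-- Groups whose divisible part has infinite rank. -/
theorem slender_of_divisible (p : ℕ) (hp : p.Prime) (hpg : ∀ a : A, ∃ n : ℕ, p ^ n • a = 0)
    (hinf : (socDiv p A : Set A).Infinite) : ESlender A := by
  obtain ⟨j, hj, hjr⟩ := exists_embed p hp.pos
  have hj1 : ∀ m : ZMod p, p • j m = 0 := by
    intro m
    rw [← map_nsmul, nsmul_eq_mul, ZMod.natCast_self, zero_mul, map_zero]
  have hfac : ∀ (c : A →+ AddCircle (1 : ℚ)) (x : A), ∃ m, (primary p).subtype m = c x := by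
    intro c x
    obtain ⟨n, hn⟩ := hpg x
    exact ⟨⟨c x, n, by rw [← map_nsmul, hn, map_zero]⟩, rfl⟩
  obtain ⟨s, hsH, hind⟩ := exists_indep p hp (socDiv p A) (fun x hx => hx.2) hinf
  -- injectivity of the divisible part
  let : DivisibleBy (divPart A) ℕ := divisibleByOfSMulRightSurj _ _ (by
    intro n hn x
    obtain ⟨y, hy, hyx⟩ := divPart_divisible n hn (x : A) x.2
    exact ⟨⟨y, hy⟩, Subtype.ext hyx⟩)
  let : DivisibleBy (divPart A) ℤ := AddGroup.divisibleByIntOfDivisibleByNat _
  have hbaer : Module.Baer ℤ (divPart A) := Module.Baer.of_divisible _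
  let jp : ZMod p →+ primary p :=
    { toFun := fun m => ⟨j m, 1, by rw [pow_one]; exact hj1 m⟩
      map_zero' := Subtype.ext (map_zero j)
      map_add' := fun x y => Subtype.ext (map_add j x y) }
  have hjp : Injective jp := by
    intro x y hxy
    apply hj
    exact congrArg Subtype.val hxy
  have hext : ∀ n, ∃ g : primary p →+ A, g (jp 1) = s n := by
    intro n
    have hps : p • (⟨s n, (hsH n).1⟩ : divPart A) = 0 := Subtype.ext (hsH n).2
    obtain ⟨g, hg⟩ := hbaer.extension_property_addMonoidHom jp hjp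
      (zl p (⟨s n, (hsH n).1⟩ : divPart A) hps)
    refine ⟨(divPart A).subtype.comp g, ?_⟩
    have h1 := DFunLike.congr_fun hg 1
    have h2 : (1 : ZMod p) = ((1 : ℤ) : ZMod p) := by push_cast; rfl
    have h3 : zl p (⟨s n, (hsH n).1⟩ : divPart A) hps 1 = ⟨s n, (hsH n).1⟩ := by
      rw [h2, zl_int, one_smul]
    rw [h3] at h1
    show ((g (jp 1) : divPart A) : A) = s n
    have h4 : g (jp 1) = ⟨s n, (hsH n).1⟩ := h1
    rw [h4]
  choose g hg using hext
  apply key_slender (primary p).subtype (primary p).subtype_injective hfac (Finsupp.liftAddHom g)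
  apply inj_of_indep p _ (jp 1) _ _ _ s hg hind
  · rintro ⟨x, n, hn⟩
    exact ⟨n, Subtype.ext hn⟩
  · apply Subtype.ext
    exact hj1 1
  · intro x hx
    have h1 : p • (x : AddCircle (1 : ℚ)) = 0 := congrArg Subtype.val hx
    obtain ⟨m, hm⟩ := hjr _ h1
    obtain ⟨m', rfl⟩ := ZMod.intCast_surjective m
    refine ⟨m', ?_⟩
    apply Subtype.ext
    show (x : AddCircle (1 : ℚ)) = ((m' • jp 1 : primary p) : AddCircle (1 : ℚ))
    have h2 : ((m' • jp 1 : primary p) : AddCircle (1 : ℚ)) = m' • j 1 := rfl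
    rw [h2, ← map_zsmul, ← hm]
    congr 1
    rw [zsmul_eq_mul, mul_one]

/-- A nontrivial `p`-group contains an element of order `p`. -/
theorem exists_socle (p : ℕ) (hpg : ∀ a : A, ∃ n : ℕ, p ^ n • a = 0) (a : A) (ha : a ≠ 0) :
    ∃ n : ℕ, p ^ n • a ≠ 0 ∧ p • (p ^ n • a) = 0 := by
  classical
  obtain ⟨k, hk0, hkmin⟩ : ∃ k, p ^ k • a = 0 ∧ ∀ i, p ^ i • a = 0 → k ≤ i :=
    ⟨Nat.find (hpg a), Nat.find_spec (hpg a), fun i hi => Nat.find_min' (hpg a) hi⟩
  have hk1 : k ≠ 0 := by
    rintro rfl
    rw [pow_zero, one_smul] at hk0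
    exact ha hk0
  refine ⟨k - 1, ?_, ?_⟩
  · intro h
    have := hkmin _ h
    omega
  · rw [← mul_smul, ← pow_succ', Nat.sub_add_cancel (by omega)]
    exact hk0


/-- Slenderness of non-reduced groups. -/
theorem slender_nonreduced (p : ℕ) (hp : p.Prime) (hpg : ∀ a : A, ∃ n : ℕ, p ^ n • a = 0)
    (hne : divPart A ≠ ⊥) : ESlender A ↔ {x : A | x ∈ divPart A ∧ p • x = 0}.Infinite := by
  constructor
  · intro hsl hfin
    apply not_slender_of_finite (socDiv p A) _ _ _ hsl
    · exact Set.Finite.to_subtype (Set.not_infinite.1 (fun h => h hfin))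
    · intro h
      obtain ⟨x, hx, hx0⟩ : ∃ x : A, x ∈ divPart A ∧ x ≠ 0 := by
        by_contra hcon
        push Not at hcon
        exact hne ((AddSubgroup.eq_bot_iff_forall _).2 hcon)
      obtain ⟨n, hn1, hn2⟩ := exists_socle p hpg x hx0
      have h1 : p ^ n • x ∈ socDiv p A := ⟨AddSubgroup.nsmul_mem _ hx _, hn2⟩
      rw [h, AddSubgroup.mem_bot] at h1
      exact hn1 h1
    · intro φ x hx
      exact ⟨divPart_invariant φ x hx.1, by rw [← map_nsmul, hx.2, map_zero]⟩
  · intro hinf
    exact slender_of_divisible p hp hpg hinf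

/-- Slenderness of groups without elements of infinite height. -/
theorem slender_separable (p : ℕ) (hp : p.Prime) (hpg : ∀ a : A, ∃ n : ℕ, p ^ n • a = 0)
    (hsep : infHeight p A = ⊥) :
    ESlender A ↔ (∀ a : A, a = 0) ∨
      (∃ k : ℕ, (∀ a : A, p ^ (k + 1) • a = 0) ∧ {x : A | ∃ y : A, p ^ k • y = x}.Infinite) ∨
      ¬ TorsionComplete p A := by
  classical
  have hsep' : ∀ a : A, (∀ n : ℕ, ∃ b : A, p ^ n • b = a) → a = 0 := by
    intro a ha
    have h1 : a ∈ infHeight p A := ha
    rwa [hsep, AddSubgroup.mem_bot] at h1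
  constructor
  · intro hsl
    by_contra hcon
    push Not at hcon
    obtain ⟨⟨a, ha⟩, hfin, htc⟩ := hcon
    by_cases hb : ∃ n : ℕ, ∀ a : A, p ^ n • a = 0
    · obtain ⟨k, hk0, hkmin⟩ : ∃ k, (∀ a : A, p ^ k • a = 0) ∧
          ∀ i, (∀ a : A, p ^ i • a = 0) → k ≤ i :=
        ⟨Nat.find hb, Nat.find_spec hb, fun i hi => Nat.find_min' hb hi⟩
      have hk1 : k ≠ 0 := by
        rintro rfl
        apply ha
        have := hk0 a
        rwa [pow_zero, one_smul] at this
      obtain ⟨l, rfl⟩ := Nat.exists_eq_succ_of_ne_zero hk1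
      have hF := hfin l hk0
      apply not_slender_of_finite (mulRange (p ^ l) A) _ _ _ hsl
      · exact hF.to_subtype
      · intro h
        have h2 : ∀ a : A, p ^ l • a = 0 := by
          intro a
          have : p ^ l • a ∈ mulRange (p ^ l) A := ⟨a, rfl⟩
          rwa [h, AddSubgroup.mem_bot] at this
        have := hkmin l h2
        omega
      · intro φ x hx
        obtain ⟨y, rfl⟩ := hx
        exact ⟨φ y, by
          show p ^ l • φ y = φ (p ^ l • y)
          rw [map_nsmul]⟩
    · push Not at hb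
      exact not_slender_of_tc p hpg hsep' hb htc hsl
  · rintro (h | ⟨k, hb, hinf⟩ | h)
    · intro f
      apply Set.Finite.subset Set.finite_empty
      intro n hn
      exact hn (h _)
    · exact slender_of_bounded p hp k hb hinf
    · intro f
      by_contra hinf
      rw [Set.not_finite] at hinf
      apply h
      intro k s hs hc
      apply complete_of_infinite p hp hpg (fun g => f g) ⟨f, fun _ => rfl⟩ _ k s _ hc
      · refine hinf.mono ?_
        intro n hn hmem
        rw [hsep, AddSubgroup.mem_bot] at hmem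
        exact hn hmem
      · intro n
        rw [hs n]
        exact AddSubgroup.zero_mem _


/-! ### Simply presented groups -/

/-- Relations of a simply presented group: `p x = y` when `y` is the parent of `x`, and
`p x = 0` when `x` has no parent. -/
noncomputable def relSub {X : Type u} (p : ℕ) (P : X → Option X) : AddSubgroup (X →₀ ℤ) :=
  AddSubgroup.closure (Set.range fun x =>
    p • Finsupp.single x (1 : ℤ) - (P x).elim 0 fun y => Finsupp.single y (1 : ℤ))

/-- `A` is simply presented as a `p`-group: it has a presentation by generators `x ∈ X` in which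
every relation has the form `p x = 0` or `p x = y` with `x, y ∈ X`. The function `d` expresses
that following the relations from any generator reaches `0` after finitely many steps. -/
def SimplyPresented (p : ℕ) (A : Type u) [AddCommGroup A] : Prop :=
  ∃ (X : Type u) (P : X → Option X) (d : X → ℕ), (∀ x y, P x = some y → d y < d x) ∧
    Nonempty (A ≃+ ((X →₀ ℤ) ⧸ relSub p P))

/-- Working form of a simple presentation. -/
structure Pres (p : ℕ) {X : Type u} (P : X → Option X) (A : Type u) [AddCommGroup A] where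
  g : X → A
  rel : ∀ x, p • g x = (P x).elim 0 g
  gen : AddSubgroup.closure (Set.range g) = ⊤
  lift : ∀ f : X → A, (∀ x, p • f x = (P x).elim 0 f) → ∃ φ : AddMonoid.End A, ∀ x, φ (g x) = f x
  liftC : ∀ f : X → AddCircle (1 : ℚ), (∀ x, p • f x = (P x).elim 0 f) →
    ∃ φ : A →+ AddCircle (1 : ℚ), ∀ x, φ (g x) = f x

theorem exists_lift_quot {X : Type u} (p : ℕ) (P : X → Option X) {B : Type*} [AddCommGroup B]
    (f : X → B) (hf : ∀ x, p • f x = (P x).elim 0 f) :
    ∃ φ : ((X →₀ ℤ) ⧸ relSub p P) →+ B,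
      ∀ x, φ (QuotientAddGroup.mk (Finsupp.single x 1)) = f x := by
  let F : (X →₀ ℤ) →+ B := Finsupp.liftAddHom fun x => (zmultiplesHom B (f x))
  have hF : ∀ x, F (Finsupp.single x 1) = f x := by
    intro x
    show Finsupp.liftAddHom _ _ = _
    rw [Finsupp.liftAddHom_apply_single]
    simp
  have hker : relSub p P ≤ F.ker := by
    rw [relSub, AddSubgroup.closure_le]
    rintro _ ⟨x, rfl⟩
    show F (p • Finsupp.single x (1 : ℤ) - (P x).elim 0 fun y => Finsupp.single y (1 : ℤ)) = 0
    rw [map_sub, map_nsmul, hF, hf]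
    cases P x with
    | none => simp
    | some y => simp [hF]
  refine ⟨QuotientAddGroup.lift _ F hker, ?_⟩
  intro x
  exact hF x

theorem SimplyPresented.pres {p : ℕ} (h : SimplyPresented p A) :
    ∃ (X : Type u) (P : X → Option X) (d : X → ℕ), (∀ x y, P x = some y → d y < d x) ∧
      Nonempty (Pres p P A) := by
  obtain ⟨X, P, d, hd, ⟨e⟩⟩ := h
  refine ⟨X, P, d, hd, ⟨?_⟩⟩
  refine
    { g := fun x => e.symm (QuotientAddGroup.mk (Finsupp.single x 1))
      rel := ?_
      gen := ?_
      lift := ?_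
      liftC := ?_ }
  · intro x
    rw [← map_nsmul]
    have h1 : (p • (QuotientAddGroup.mk (Finsupp.single x (1 : ℤ)) :
        (X →₀ ℤ) ⧸ relSub p P)) =
        QuotientAddGroup.mk ((P x).elim 0 fun y => Finsupp.single y (1 : ℤ)) := by
      have h2 : (p • (QuotientAddGroup.mk (Finsupp.single x (1 : ℤ)) :
        (X →₀ ℤ) ⧸ relSub p P)) = QuotientAddGroup.mk (p • Finsupp.single x (1 : ℤ)) := rfl
      rw [h2, ← sub_eq_zero, ← QuotientAddGroup.mk_sub, QuotientAddGroup.eq_zero_iff]
      exact AddSubgroup.subset_closure ⟨x, rfl⟩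
    rw [h1]
    cases P x with
    | none =>
      show e.symm (QuotientAddGroup.mk 0) = 0
      rw [QuotientAddGroup.mk_zero, map_zero]
    | some y => rfl
  · rw [eq_top_iff]
    intro a _
    obtain ⟨v, hv⟩ := QuotientAddGroup.mk_surjective (e a)
    have ha : a = e.symm (QuotientAddGroup.mk v) := by rw [hv, e.symm_apply_apply]
    rw [ha]
    clear hv ha
    induction v using Finsupp.induction_linear with
    | zero =>
      rw [QuotientAddGroup.mk_zero, map_zero]
      exact AddSubgroup.zero_mem _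
    | add v w hv hw =>
      rw [QuotientAddGroup.mk_add, map_add]
      exact AddSubgroup.add_mem _ hv hw
    | single x m =>
      have h1 : (Finsupp.single x m : X →₀ ℤ) = m • Finsupp.single x 1 := by
        rw [Finsupp.smul_single, smul_eq_mul, mul_one]
      have h2 : (QuotientAddGroup.mk (m • Finsupp.single x (1 : ℤ)) : (X →₀ ℤ) ⧸ relSub p P) =
        m • QuotientAddGroup.mk (Finsupp.single x (1 : ℤ)) := rfl
      rw [h1, h2, map_zsmul]
      exact AddSubgroup.zsmul_mem _ (AddSubgroup.subset_closure (Set.mem_range_self x)) _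
  · intro f hf
    obtain ⟨φ, hφ⟩ := exists_lift_quot p P f hf
    refine ⟨(φ.comp e.toAddMonoidHom : A →+ A), fun x => ?_⟩
    show φ (e (e.symm _)) = _
    rw [e.apply_symm_apply, hφ]
  · intro f hf
    obtain ⟨φ, hφ⟩ := exists_lift_quot p P f hf
    refine ⟨φ.comp e.toAddMonoidHom, fun x => ?_⟩
    show φ (e (e.symm _)) = _
    rw [e.apply_symm_apply, hφ]

/-- Sanity check: a simply presented group is a `p`-group. -/
theorem SimplyPresented.isPGroup {p : ℕ} (h : SimplyPresented p A) (a : A) :
    ∃ n : ℕ, p ^ n • a = 0 := by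
  obtain ⟨X, P, d, hd, ⟨π⟩⟩ := h.pres
  have key : ∀ n x, d x = n → ∃ k : ℕ, p ^ k • π.g x = 0 := by
    intro n
    induction n using Nat.strong_induction_on with
    | _ n ih =>
      intro x hx
      cases hPx : P x with
      | none =>
        refine ⟨1, ?_⟩
        rw [pow_one, π.rel, hPx]
        rfl
      | some y =>
        obtain ⟨k, hk⟩ := ih (d y) (by have := hd x y hPx; omega) y rfl
        refine ⟨k + 1, ?_⟩
        rw [pow_succ, mul_smul, π.rel, hPx]
        exact hk
  have ha : a ∈ AddSubgroup.closure (Set.range π.g) := by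
    rw [π.gen]
    exact AddSubgroup.mem_top a
  induction ha using AddSubgroup.closure_induction with
  | mem a h =>
    obtain ⟨x, rfl⟩ := h
    exact key _ x rfl
  | zero => exact ⟨0, smul_zero _⟩
  | add f g _ _ hf hg =>
    obtain ⟨a, ha⟩ := hf
    obtain ⟨b, hb⟩ := hg
    refine ⟨a + b, ?_⟩
    have e1 : p ^ (a + b) • f = 0 := by
      rw [add_comm, pow_add, mul_smul, ha, smul_zero]
    have e2 : p ^ (a + b) • g = 0 := by
      rw [pow_add, mul_smul, hb, smul_zero]
    rw [smul_add, e1, e2, add_zero]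
  | neg a _ ha =>
    obtain ⟨k, hk⟩ := ha
    exact ⟨k, by rw [smul_neg, hk, neg_zero]⟩

/-- Recursion from the parent. -/
noncomputable def treeRec {X T : Type*} (P : X → Option X) (d : X → ℕ)
    (hd : ∀ x y, P x = some y → d y < d x) (F : X → Option T → T) (x : X) : T :=
  F x (match _h : P x with
    | none => none
    | some y => some (treeRec P d hd F y))
termination_by d x
decreasing_by exact hd _ _ _h

theorem treeRec_eq {X T : Type*} (P : X → Option X) (d : X → ℕ)
    (hd : ∀ x y, P x = some y → d y < d x) (F : X → Option T → T) (x : X) :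
    treeRec P d hd F x = F x ((P x).map (treeRec P d hd F)) := by
  rw [treeRec]
  congr 1
  split
  · next h => rw [h]; rfl
  · next y h => rw [h]; rfl


section Tree

variable {p : ℕ} {X : Type u} {P : X → Option X}

/-- The combination of the generators with given natural coefficients. -/
noncomputable def comb (π : Pres p P A) (m : X →₀ ℕ) : A := m.sum fun x k => k • π.g x

theorem comb_zero (π : Pres p P A) : comb π 0 = 0 := Finsupp.sum_zero_index

theorem comb_add (π : Pres p P A) (m m' : X →₀ ℕ) : comb π (m + m') = comb π m + comb π m' :=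
  Finsupp.sum_add_index' (fun _ => zero_smul _ _) (fun _ _ _ => add_smul _ _ _)

theorem comb_single (π : Pres p P A) (x : X) (k : ℕ) :
    comb π (Finsupp.single x k) = k • π.g x := Finsupp.sum_single_index (zero_smul _ _)

/-- Every element has a reduced representation. -/
theorem exists_rep (hp : p.Prime) (hpg : ∀ a : A, ∃ n : ℕ, p ^ n • a = 0) (π : Pres p P A)
    (d : X → ℕ) (hd : ∀ x y, P x = some y → d y < d x) (a : A) :
    ∃ m : X →₀ ℕ, (∀ x, m x < p) ∧ a = comb π m := by
  classical
  -- adding a generator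
  have hadd : ∀ n : ℕ, ∀ x, d x = n → ∀ m : X →₀ ℕ, (∀ x, m x < p) →
      ∃ m' : X →₀ ℕ, (∀ x, m' x < p) ∧ comb π m + π.g x = comb π m' := by
    intro n
    induction n using Nat.strong_induction_on with
    | _ n ih =>
      intro x hx m hm
      rcases Nat.lt_or_ge (m x + 1) p with h | h
      · refine ⟨m + Finsupp.single x 1, ?_, ?_⟩
        · intro y
          rcases eq_or_ne y x with rfl | hy
          · simpa using h
          · simpa [Finsupp.single_eq_of_ne hy] using hm y
        · rw [comb_add, comb_single, one_smul]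
      · have hmx : m x + 1 = p := by
          have := hm x
          omega
        have hsplit : m = m.erase x + Finsupp.single x (m x) := by
          rw [add_comm]
          exact (Finsupp.single_add_erase x m).symm
        have hcomb : comb π m + π.g x = comb π (m.erase x) + p • π.g x := by
          conv_lhs => rw [hsplit]
          rw [comb_add, comb_single, add_assoc]
          congr 1
          nth_rewrite 2 [← one_smul ℕ (π.g x)]
          rw [← add_smul, hmx]
        have herase : ∀ y, (m.erase x) y < p := by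
          intro y
          rcases eq_or_ne y x with rfl | hy
          · rw [Finsupp.erase_same]
            exact hp.pos
          · rw [Finsupp.erase_ne hy]
            exact hm y
        rw [hcomb, π.rel]
        cases hPx : P x with
        | none =>
          refine ⟨m.erase x, herase, ?_⟩
          show comb π (m.erase x) + 0 = _
          rw [add_zero]
        | some y =>
          exact ih (d y) (by rw [← hx]; exact hd x y hPx) y rfl _ herase
  -- closure under addition
  have hsum : ∀ m' m : X →₀ ℕ, (∀ x, m x < p) →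
      ∃ m'' : X →₀ ℕ, (∀ x, m'' x < p) ∧ comb π m + comb π m' = comb π m'' := by
    intro m'
    induction m' using Finsupp.induction_linear with
    | zero =>
      intro m hm
      exact ⟨m, hm, by rw [comb_zero, add_zero]⟩
    | add f g hf hg =>
      intro m hm
      obtain ⟨m1, hm1, h1⟩ := hf m hm
      obtain ⟨m2, hm2, h2⟩ := hg m1 hm1
      refine ⟨m2, hm2, ?_⟩
      rw [comb_add, ← add_assoc, h1, h2]
    | single x k =>
      induction k with
      | zero =>
        intro m hm
        exact ⟨m, hm, by rw [comb_single, zero_smul, add_zero]⟩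
      | succ k ih =>
        intro m hm
        obtain ⟨m1, hm1, h1⟩ := ih m hm
        obtain ⟨m2, hm2, h2⟩ := hadd _ x rfl m1 hm1
        refine ⟨m2, hm2, ?_⟩
        rw [comb_single, add_smul, one_smul, ← add_assoc, ← comb_single, h1, h2]
  have hnsmul : ∀ (k : ℕ) (m : X →₀ ℕ), (∀ x, m x < p) →
      ∃ m' : X →₀ ℕ, (∀ x, m' x < p) ∧ k • comb π m = comb π m' := by
    intro k
    induction k with
    | zero =>
      intro m _
      exact ⟨0, fun _ => hp.pos, by rw [zero_smul, comb_zero]⟩
    | succ k ih =>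
      intro m hm
      obtain ⟨m1, hm1, h1⟩ := ih m hm
      obtain ⟨m2, hm2, h2⟩ := hsum m m1 hm1
      refine ⟨m2, hm2, ?_⟩
      rw [add_smul, one_smul, h1, h2]
  have ha : a ∈ AddSubgroup.closure (Set.range π.g) := by
    rw [π.gen]
    exact AddSubgroup.mem_top a
  induction ha using AddSubgroup.closure_induction with
  | mem a h =>
    obtain ⟨x, rfl⟩ := h
    obtain ⟨m, hm, h⟩ := hadd _ x rfl 0 (fun _ => hp.pos)
    exact ⟨m, hm, by rw [← h, comb_zero, zero_add]⟩
  | zero => exact ⟨0, fun _ => hp.pos, (comb_zero π).symm⟩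
  | add a b _ _ ha hb =>
    obtain ⟨m, hm, rfl⟩ := ha
    obtain ⟨m', hm', rfl⟩ := hb
    obtain ⟨m2, hm2, h2⟩ := hsum m' m hm
    exact ⟨m2, hm2, h2⟩
  | neg a _ ha =>
    obtain ⟨m, hm, rfl⟩ := ha
    obtain ⟨n, hn⟩ := hpg (comb π m)
    obtain ⟨m2, hm2, h2⟩ := hnsmul (p ^ n - 1) m hm
    refine ⟨m2, hm2, ?_⟩
    rw [← h2]
    have h3 : (p ^ n - 1 + 1) • comb π m = 0 := by
      rw [Nat.sub_add_cancel (Nat.one_le_pow _ _ hp.pos)]
      exact hn
    rw [add_smul, one_smul] at h3
    exact neg_eq_of_add_eq_zero_left h3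

/-- A homomorphism that is nonzero on exactly one generator of the support. -/
theorem map_comb {B : Type*} [AddCommGroup B] (π : Pres p P A) (m : X →₀ ℕ) (φ : A →+ B)
    (x0 : X) (h : ∀ x, m x ≠ 0 → x ≠ x0 → φ (π.g x) = 0) :
    φ (comb π m) = m x0 • φ (π.g x0) := by
  classical
  unfold comb Finsupp.sum
  rw [map_sum]
  by_cases hx0 : x0 ∈ m.support
  · rw [Finset.sum_eq_single_of_mem x0 hx0, map_nsmul]
    intro x hx hne
    rw [map_nsmul, h x (Finsupp.mem_support_iff.1 hx) hne, smul_zero]
  · rw [Finsupp.notMem_support_iff.1 hx0, zero_smul]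
    apply Finset.sum_eq_zero
    intro x hx
    have hne : x ≠ x0 := fun h => hx0 (h ▸ hx)
    rw [map_nsmul, h x (Finsupp.mem_support_iff.1 hx) hne, smul_zero]

/-- A nonzero multiple. -/
theorem smul_ne_zero_of_order {B : Type*} [AddCommGroup B] (hp : p.Prime) (b : B) (hb : b ≠ 0)
    (hpb : p • b = 0) (k : ℕ) (hk0 : k ≠ 0) (hk : k < p) : k • b ≠ 0 := by
  intro h
  have h1 : addOrderOf b ∣ p := addOrderOf_dvd_of_nsmul_eq_zero hpb
  rcases (Nat.dvd_prime hp).1 h1 with h2 | h2
  · exact hb (AddMonoid.addOrderOf_eq_one_iff.1 h2)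
  · have h3 := addOrderOf_dvd_of_nsmul_eq_zero h
    rw [h2] at h3
    exact absurd (Nat.le_of_dvd (Nat.pos_of_ne_zero hk0) h3) (by omega)

theorem exists_order_p (hp : p.Prime) : ∃ e : AddCircle (1 : ℚ), e ≠ 0 ∧ p • e = 0 := by
  obtain ⟨j, hj, -⟩ := exists_embed p hp.pos
  refine ⟨j 1, ?_, ?_⟩
  · intro h
    rw [← map_zero j] at h
    have h1 := hj h
    have : Fact p.Prime := ⟨hp⟩
    exact one_ne_zero h1
  · rw [← map_nsmul, nsmul_eq_mul, ZMod.natCast_self, zero_mul, map_zero]

theorem circle_div (hp : p.Prime) (z : AddCircle (1 : ℚ)) : ∃ w : AddCircle (1 : ℚ), p • w = z := by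
  obtain ⟨q, rfl⟩ := QuotientAddGroup.mk_surjective z
  refine ⟨((q / p : ℚ) : AddCircle (1 : ℚ)), ?_⟩
  have hp0 : (p : ℚ) ≠ 0 := by exact_mod_cast hp.ne_zero
  rw [← AddCircle.coe_nsmul]
  have : p • (q / p : ℚ) = q := by
    rw [nsmul_eq_mul]
    field_simp
  rw [this]

/-- A character concentrated on the part of the tree above `x0`. -/
theorem exists_char (hp : p.Prime) (π : Pres p P A) (d : X → ℕ)
    (hd : ∀ x y, P x = some y → d y < d x) {O : Type*} [Preorder O] (rk : X → O)
    (hrk : ∀ x y, P x = some y → rk x < rk y) (x0 : X) :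
    ∃ φ : A →+ AddCircle (1 : ℚ), φ (π.g x0) ≠ 0 ∧ p • φ (π.g x0) = 0 ∧
      ∀ x, φ (π.g x) ≠ 0 → x = x0 ∨ (d x0 < d x ∧ rk x < rk x0) := by
  classical
  obtain ⟨e, he0, hpe⟩ := exists_order_p hp
  choose w hw using circle_div hp
  let F : X → Option (AddCircle (1 : ℚ)) → AddCircle (1 : ℚ) := fun x o =>
    if x = x0 then e else o.elim 0 (fun z => if z = 0 then 0 else w z)
  let c := treeRec P d hd F
  have hc : ∀ x, c x = F x ((P x).map c) := treeRec_eq P d hd F
  have hc0 : c x0 = e := by
    rw [hc]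
    simp [F]
  have hsupp : ∀ n x, d x = n → c x ≠ 0 → x = x0 ∨ (d x0 < d x ∧ rk x < rk x0) := by
    intro n
    induction n using Nat.strong_induction_on with
    | _ n ih =>
      intro x hx hcx
      by_cases hxx : x = x0
      · exact Or.inl hxx
      · right
        rw [hc] at hcx
        simp only [F, if_neg hxx] at hcx
        cases hPx : P x with
        | none =>
          rw [hPx] at hcx
          exact absurd rfl hcx
        | some y =>
          rw [hPx] at hcx
          have hcy : c y ≠ 0 := by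
            intro h
            apply hcx
            show (if c y = 0 then 0 else w (c y)) = 0
            rw [if_pos h]
          have hdy := hd x y hPx
          have hry := hrk x y hPx
          rcases ih (d y) (by omega) y rfl hcy with h | h
          · rw [h] at hdy hry
            exact ⟨hdy, hry⟩
          · exact ⟨h.1.trans hdy, hry.trans h.2⟩
  obtain ⟨φ, hφ⟩ := π.liftC c (by
    intro x
    by_cases hxx : x = x0
    · rw [hxx, hc0, hpe]
      cases hPx : P x0 with
      | none => rfl
      | some y =>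
        show 0 = c y
        by_contra hne
        have hdy := hd x0 y hPx
        rcases hsupp _ y rfl (Ne.symm hne) with h | h
        · rw [h] at hdy
          exact lt_irrefl _ hdy
        · exact lt_irrefl _ (hdy.trans h.1)
    · rw [hc]
      simp only [F, if_neg hxx]
      cases hPx : P x with
      | none =>
        show p • (0 : AddCircle (1 : ℚ)) = 0
        rw [smul_zero]
      | some y =>
        show p • (if c y = 0 then 0 else w (c y)) = c y
        split_ifs with h
        · rw [smul_zero, h]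
        · exact hw _)
  refine ⟨φ, ?_, ?_, ?_⟩
  · rw [hφ, hc0]
    exact he0
  · rw [hφ, hc0]
    exact hpe
  · intro x hx
    rw [hφ] at hx
    exact hsupp _ x rfl hx

end Tree

/-- Slenderness from coordinate projections and detecting endomorphisms. -/
theorem key_family
    (h : ∀ a : ℕ → A, (∀ n, a n ≠ 0) → ∃ πs ψ : ℕ → AddMonoid.End A,
      (∀ b, {n : ℕ | πs n b ≠ 0}.Finite) ∧ (∀ n x, πs n (ψ n x) = ψ n x) ∧
      (∀ n m x, n ≠ m → πs n (ψ m x) = 0) ∧ ∀ n, ψ n (a n) ≠ 0) : ESlender A := by
  intro f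
  by_contra hinf
  rw [Set.not_finite] at hinf
  obtain ⟨f2, hf2⟩ := exists_restrict f (fun n => (hinf.natEmbedding _ n : ℕ)) (by
    intro a b hab
    exact (hinf.natEmbedding _).injective (Subtype.ext hab))
  obtain ⟨πs, ψ, h1, h2, h3, h4⟩ := h (fun n => f2 (Pi.single n 1)) (by
    intro n
    rw [hf2]
    exact (hinf.natEmbedding _ n).2)
  have hall : ∀ n, πs n (f2 ψ) ≠ 0 := by
    intro n
    have h5 : πs n (f2 ψ) = f2 (fun m => πs n * ψ m) := (map_mul_gen f2 (πs n) ψ).symm
    have h6 : (fun m => πs n * ψ m) = Pi.single n (ψ n) := by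
      funext m
      rcases eq_or_ne m n with rfl | hm
      · rw [Pi.single_eq_same]
        ext x
        exact h2 m x
      · rw [Pi.single_eq_of_ne hm]
        ext x
        exact h3 n m x (Ne.symm hm)
    have h7 : f2 (Pi.single n (ψ n)) = ψ n (f2 (Pi.single n 1)) := map_single_gen f2 n (ψ n)
    rw [h5, h6, h7]
    exact h4 n
  have h8 := h1 (f2 ψ)
  have h9 : {n : ℕ | πs n (f2 ψ) ≠ 0} = Set.univ := Set.eq_univ_of_forall hall
  rw [h9] at h8
  exact Set.infinite_univ h8

theorem exists_injective_choice {X : Type*} (S : ℕ → Set X) (hS : ∀ n, (S n).Infinite) :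
    ∃ r : ℕ → X, Injective r ∧ ∀ n, r n ∈ S n := by
  classical
  have h : ∀ (n : ℕ) (L : Finset X), ∃ y ∈ S n, y ∉ L := by
    intro n L
    obtain ⟨y, hy1, hy2⟩ := ((hS n).sdiff (Finset.finite_toSet L)).nonempty
    exact ⟨y, hy1, hy2⟩
  choose c hc1 hc2 using h
  let L : ℕ → Finset X := fun n => Nat.rec ∅ (fun n L => insert (c n L) L) n
  have hL : ∀ n, L (n + 1) = insert (c n (L n)) (L n) := fun n => rfl
  have hsub : ∀ m n, m < n → c m (L m) ∈ L n := by
    intro m n hmn
    induction n with
    | zero => omega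
    | succ n ih =>
      rw [hL, Finset.mem_insert]
      rcases Nat.lt_succ_iff_lt_or_eq.1 hmn with h | rfl
      · exact Or.inr (ih h)
      · exact Or.inl rfl
  refine ⟨fun n => c n (L n), ?_, fun n => hc1 n _⟩
  intro m n hmn
  rcases lt_trichotomy m n with h | h | h
  · have h1 := hsub m n h
    have h2 : c m (L m) = c n (L n) := hmn
    rw [h2] at h1
    exact absurd h1 (hc2 n (L n))
  · exact h
  · have h1 := hsub n m h
    have h2 : c m (L m) = c n (L n) := hmn
    rw [← h2] at h1
    exact absurd h1 (hc2 m (L m))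

section Tree2

variable {p : ℕ} {X : Type u} {P : X → Option X}

theorem hom_ext_gen {B : Type*} [AddCommGroup B] (π : Pres p P A) (φ ψ : A →+ B)
    (h : ∀ x, φ (π.g x) = ψ (π.g x)) (a : A) : φ a = ψ a := by
  have ha : a ∈ AddSubgroup.closure (Set.range π.g) := by
    rw [π.gen]
    exact AddSubgroup.mem_top a
  induction ha using AddSubgroup.closure_induction with
  | mem a h' =>
    obtain ⟨x, rfl⟩ := h'
    exact h x
  | zero => rw [map_zero, map_zero]
  | add a b _ _ ha hb => rw [map_add, map_add, ha, hb]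
  | neg a _ ha => rw [map_neg, map_neg, ha]

theorem gen_ne_zero (hp : p.Prime) (π : Pres p P A) (d : X → ℕ)
    (hd : ∀ x y, P x = some y → d y < d x) (x : X) : π.g x ≠ 0 := by
  obtain ⟨φ, hφ, -, -⟩ := exists_char hp π d hd (fun x => OrderDual.toDual (d x))
    (fun x y h => hd x y h) x
  intro h
  rw [h, map_zero] at hφ
  exact hφ rfl

/-- The root below `x`. -/
theorem exists_root (d : X → ℕ) (hd : ∀ x y, P x = some y → d y < d x) :
    ∃ root : X → X, (∀ x, P (root x) = none) ∧ (∀ x, P x = none → root x = x) ∧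
      ∀ x y, P x = some y → root x = root y := by
  let root := treeRec P d hd (fun x (o : Option X) => o.getD x)
  have hroot : ∀ x, root x = ((P x).map root).getD x := treeRec_eq P d hd _
  refine ⟨root, ?_, ?_, ?_⟩
  · have key : ∀ n x, d x = n → P (root x) = none := by
      intro n
      induction n using Nat.strong_induction_on with
      | _ n ih =>
        intro x hx
        rw [hroot]
        cases hPx : P x with
        | none => exact hPx
        | some y => exact ih (d y) (by have := hd x y hPx; omega) y rfl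
    exact fun x => key _ x rfl
  · intro x hx
    rw [hroot, hx]
    rfl
  · intro x y hxy
    rw [hroot, hxy]
    rfl

/-- A tree map sending `x0` to the root `r`. -/
theorem exists_tree_hom (π : Pres p P A) (d : X → ℕ)
    (hd : ∀ x y, P x = some y → d y < d x) {O : Type*} [LinearOrder O] (rk : X → O)
    (hrk : ∀ x y, P x = some y → rk x < rk y)
    (hch : ∀ (o : O) (y : X), o < rk y → ∃ c, P c = some y ∧ o ≤ rk c)
    (root : X → X) (hroot1 : ∀ x, P x = none → root x = x)
    (hroot2 : ∀ x y, P x = some y → root x = root y)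
    (x0 r : X) (hr : P r = none) (hx0r : rk x0 ≤ rk r) :
    ∃ φ : AddMonoid.End A, φ (π.g x0) = π.g r ∧
      (∀ x, φ (π.g x) ≠ 0 → x = x0 ∨ d x0 < d x) ∧
      ∀ x, φ (π.g x) = 0 ∨ ∃ x', root x' = r ∧ φ (π.g x) = π.g x' := by
  classical
  let F : X → Option (Option X) → Option X := fun x o =>
    if x = x0 then some r else o.join.bind fun y' =>
      if h : ∃ x', P x' = some y' ∧ rk x ≤ rk x' then some h.choose else none
  let τ := treeRec P d hd F
  have hτ : ∀ x, τ x = F x ((P x).map τ) := treeRec_eq P d hd F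
  have hτ0 : τ x0 = some r := by
    rw [hτ]
    simp [F]
  have hτnone : ∀ x, x ≠ x0 → P x = none → τ x = none := by
    intro x hx hPx
    rw [hτ, hPx]
    simp [F, hx]
  have hτn : ∀ x y, x ≠ x0 → P x = some y → τ y = none → τ x = none := by
    intro x y hx hPx hy
    rw [hτ, hPx]
    simp [F, hx, hy]
  have hτs : ∀ x y y', x ≠ x0 → P x = some y → τ y = some y' → rk y ≤ rk y' →
      ∃ x', τ x = some x' ∧ P x' = some y' ∧ rk x ≤ rk x' := by
    intro x y y' hx hPx hy hrky
    have hex : ∃ x', P x' = some y' ∧ rk x ≤ rk x' :=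
      hch (rk x) y' (lt_of_lt_of_le (hrk x y hPx) hrky)
    refine ⟨hex.choose, ?_, hex.choose_spec.1, hex.choose_spec.2⟩
    rw [hτ, hPx]
    simp only [F, if_neg hx, Option.map_some, hy, Option.join_some, Option.bind_some]
    rw [dif_pos hex]
  have hinv : ∀ n x, d x = n → ∀ x', τ x = some x' →
      (x = x0 ∨ d x0 < d x) ∧ rk x ≤ rk x' ∧ root x' = r := by
    intro n
    induction n using Nat.strong_induction_on with
    | _ n ih =>
      intro x hx x' hx'
      by_cases hxx : x = x0
      · rw [hxx, hτ0] at hx'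
        injection hx' with hx'
        rw [← hx', hxx]
        exact ⟨Or.inl rfl, hx0r, hroot1 r hr⟩
      · cases hPx : P x with
        | none =>
          rw [hτnone x hxx hPx] at hx'
          exact absurd hx' (by simp)
        | some y =>
          have hdy := hd x y hPx
          cases hy : τ y with
          | none =>
            rw [hτn x y hxx hPx hy] at hx'
            exact absurd hx' (by simp)
          | some y' =>
            obtain ⟨h1, h2, h3⟩ := ih (d y) (by omega) y rfl y' hy
            obtain ⟨x'', h4, h5, h6⟩ := hτs x y y' hxx hPx hy h2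
            rw [hx'] at h4
            injection h4 with h4
            rw [h4]
            refine ⟨Or.inr ?_, h6, ?_⟩
            · rcases h1 with h1 | h1
              · rw [← h1]
                exact hdy
              · exact h1.trans hdy
            · rw [hroot2 x'' y' h5, h3]
  obtain ⟨φ, hφ⟩ := π.lift (fun x => (τ x).elim 0 π.g) (by
    intro x
    by_cases hxx : x = x0
    · rw [hxx]
      rw [hτ0]
      show p • π.g r = _
      rw [π.rel, hr]
      cases hPx : P x0 with
      | none => rfl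
      | some y =>
        show (0 : A) = (τ y).elim 0 π.g
        cases hy : τ y with
        | none => rfl
        | some y' =>
          exfalso
          have hdy := hd x0 y hPx
          rcases (hinv _ y rfl y' hy).1 with h | h
          · rw [h] at hdy
            exact lt_irrefl _ hdy
          · exact lt_irrefl _ (hdy.trans h)
    · cases hPx : P x with
      | none =>
        rw [hτnone x hxx hPx]
        show p • (0 : A) = 0
        rw [smul_zero]
      | some y =>
        show p • (τ x).elim 0 π.g = (τ y).elim 0 π.g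
        cases hy : τ y with
        | none =>
          rw [hτn x y hxx hPx hy]
          show p • (0 : A) = 0
          rw [smul_zero]
        | some y' =>
          obtain ⟨x', h4, h5, h6⟩ := hτs x y y' hxx hPx hy (hinv _ y rfl y' hy).2.1
          rw [h4]
          show p • π.g x' = π.g y'
          rw [π.rel, h5]
          rfl)
  refine ⟨φ, ?_, ?_, ?_⟩
  · rw [hφ, hτ0]
    rfl
  · intro x hx
    rw [hφ] at hx
    cases hx' : τ x with
    | none =>
      rw [hx'] at hx
      exact absurd rfl hx
    | some x' => exact (hinv _ x rfl x' hx').1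
  · intro x
    rw [hφ]
    cases hx' : τ x with
    | none => exact Or.inl rfl
    | some x' => exact Or.inr ⟨x', (hinv _ x rfl x' hx').2.2, rfl⟩

/-- The slender case for simply presented groups. -/
theorem slender_tree (hp : p.Prime) (hpg : ∀ a : A, ∃ n : ℕ, p ^ n • a = 0) (π : Pres p P A)
    (d : X → ℕ) (hd : ∀ x y, P x = some y → d y < d x) {O : Type*} [LinearOrder O] (rk : X → O)
    (hrk : ∀ x y, P x = some y → rk x < rk y)
    (hch : ∀ (o : O) (y : X), o < rk y → ∃ c, P c = some y ∧ o ≤ rk c)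
    (hinf : ∀ x, {r : X | P r = none ∧ rk x ≤ rk r}.Infinite) : ESlender A := by
  classical
  obtain ⟨root, hroot0, hroot1, hroot2⟩ := exists_root (P := P) d hd
  apply key_family
  intro a ha
  have hrep : ∀ n, ∃ (m : X →₀ ℕ) (x0 : X), (∀ x, m x < p) ∧ a n = comb π m ∧ m x0 ≠ 0 ∧
      ∀ x, m x ≠ 0 → d x ≤ d x0 := by
    intro n
    obtain ⟨m, hm, ham⟩ := exists_rep hp hpg π d hd (a n)
    have hne : m.support.Nonempty := by
      rw [Finset.nonempty_iff_ne_empty]
      intro h
      rw [Finsupp.support_eq_empty] at h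
      apply ha n
      rw [ham, h, comb_zero]
    obtain ⟨x0, hx0, hmax⟩ := Finset.exists_max_image m.support d hne
    exact ⟨m, x0, hm, ham, Finsupp.mem_support_iff.1 hx0,
      fun x hx => hmax x (Finsupp.mem_support_iff.2 hx)⟩
  choose m x0 hm ham hmx0 hmax using hrep
  obtain ⟨r, hrinj, hr⟩ := exists_injective_choice
    (fun n => {r : X | P r = none ∧ rk (x0 n) ≤ rk r}) (fun n => hinf (x0 n))
  choose ψ hψ1 hψ2 hψ3 using fun n => exists_tree_hom π d hd rk hrk hch root hroot1 hroot2
    (x0 n) (r n) (hr n).1 (hr n).2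
  have hproj : ∀ n, ∃ θ : AddMonoid.End A, ∀ x,
      θ (π.g x) = if root x = r n then π.g x else 0 := by
    intro n
    obtain ⟨θ, hθ⟩ := π.lift (fun x => if root x = r n then π.g x else 0) (by
      intro x
      cases hPx : P x with
      | none =>
        show p • (if root x = r n then π.g x else 0) = 0
        split_ifs
        · rw [π.rel, hPx]
          rfl
        · rw [smul_zero]
      | some y =>
        show p • (if root x = r n then π.g x else 0) = if root y = r n then π.g y else 0
        rw [hroot2 x y hPx]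
        split_ifs
        · rw [π.rel, hPx]
          rfl
        · rw [smul_zero])
    exact ⟨θ, hθ⟩
  choose θ hθ using hproj
  refine ⟨θ, ψ, ?_, ?_, ?_, ?_⟩
  · intro b
    obtain ⟨mb, _, rfl⟩ := exists_rep hp hpg π d hd b
    have hfin : ((mb.support.image root : Finset X) : Set X).Finite := Finset.finite_toSet _
    refine (hfin.preimage (f := r) hrinj.injOn).subset ?_
    intro n hn
    by_contra hcon
    apply hn
    unfold comb Finsupp.sum
    rw [map_sum]
    apply Finset.sum_eq_zero
    intro x hx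
    rw [map_nsmul, hθ, if_neg, smul_zero]
    intro h
    apply hcon
    show r n ∈ ((mb.support.image root : Finset X) : Set X)
    rw [Finset.mem_coe, Finset.mem_image]
    exact ⟨x, hx, h⟩
  · intro n z
    apply hom_ext_gen π ((θ n).comp (ψ n)) (ψ n)
    intro x
    show θ n (ψ n (π.g x)) = ψ n (π.g x)
    rcases hψ3 n x with h | ⟨x', h1, h2⟩
    · rw [h, map_zero]
    · rw [h2, hθ, if_pos h1]
  · intro n k z hnk
    have h0 := hom_ext_gen π ((θ n).comp (ψ k)) 0 (by
      intro x
      show θ n (ψ k (π.g x)) = 0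
      rcases hψ3 k x with h | ⟨x', h1, h2⟩
      · rw [h, map_zero]
      · rw [h2, hθ, if_neg]
        rw [h1]
        exact fun h => hnk (hrinj h).symm) z
    exact h0
  · intro n
    rw [ham n]
    have h1 : ψ n (comb π (m n)) = (m n) (x0 n) • ψ n (π.g (x0 n)) :=
      map_comb π (m n) (ψ n) (x0 n) (by
      intro x hx hne
      by_contra hcon
      rcases hψ2 n x hcon with h | h
      · exact hne h
      · exact absurd (hmax n x hx) (by omega))
    rw [h1, hψ1]
    apply smul_ne_zero_of_order hp _ (gen_ne_zero hp π d hd _) _ _ (hmx0 n) (hm n _)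
    rw [π.rel, (hr n).1]
    rfl

end Tree2

section Tree3

variable {p : ℕ} {X : Type u} {P : X → Option X}

/-- The support of a reduced representation of an element of the subgroup generated by an
upward closed set of generators. -/
theorem support_of_mem (hp : p.Prime) (π : Pres p P A) (d : X → ℕ)
    (hd : ∀ x y, P x = some y → d y < d x) {O : Type*} [LinearOrder O] (rk : X → O)
    (hrk : ∀ x y, P x = some y → rk x < rk y) (U : X → Prop)
    (hU : ∀ x y, U x → rk x ≤ rk y → U y) (m : X →₀ ℕ) (hm : ∀ x, m x < p)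
    (hmem : comb π m ∈ AddSubgroup.closure {a | ∃ y, U y ∧ a = π.g y}) (x : X) (hx : m x ≠ 0) :
    U x := by
  classical
  by_contra hUx
  have hne : (m.support.filter (fun x => ¬ U x)).Nonempty :=
    ⟨x, Finset.mem_filter.2 ⟨Finsupp.mem_support_iff.2 hx, hUx⟩⟩
  obtain ⟨x0, hx0, hmax⟩ := Finset.exists_max_image _ d hne
  rw [Finset.mem_filter] at hx0
  obtain ⟨φ, h1, h2, h3⟩ := exists_char hp π d hd rk hrk x0
  have hkill : ∀ a ∈ AddSubgroup.closure {a | ∃ y, U y ∧ a = π.g y}, φ a = 0 := by
    intro a ha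
    induction ha using AddSubgroup.closure_induction with
    | mem a h =>
      obtain ⟨y, hy, rfl⟩ := h
      by_contra hcon
      rcases h3 y hcon with h | h
      · exact hx0.2 (h ▸ hy)
      · exact hx0.2 (hU y x0 hy h.2.le)
    | zero => exact map_zero φ
    | add a b _ _ ha hb => rw [map_add, ha, hb, add_zero]
    | neg a _ ha => rw [map_neg, ha, neg_zero]
  have h4 := map_comb π m φ x0 (by
    intro y hy hne
    by_contra hcon
    rcases h3 y hcon with h | h
    · exact hne h
    · by_cases hUy : U y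
      · exact hx0.2 (hU y x0 hUy h.2.le)
      · have := hmax y (Finset.mem_filter.2 ⟨Finsupp.mem_support_iff.2 hy, hUy⟩)
        exact absurd h.1 (by omega))
  rw [hkill _ hmem] at h4
  exact smul_ne_zero_of_order hp _ h1 h2 _ (Finsupp.mem_support_iff.1 hx0.1) (hm x0) h4.symm

/-- Endomorphisms do not decrease ranks. -/
theorem endo_rank (hp : p.Prime) (hpg : ∀ a : A, ∃ n : ℕ, p ^ n • a = 0) (π : Pres p P A)
    (d : X → ℕ) (hd : ∀ x y, P x = some y → d y < d x) {O : Type*} [LinearOrder O] (rk : X → O)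
    (hrk : ∀ x y, P x = some y → rk x < rk y)
    (hch : ∀ (o : O) (y : X), o < rk y → ∃ c, P c = some y ∧ o ≤ rk c)
    (hwf : WellFounded (fun x y => P x = some y)) (φ : AddMonoid.End A) (x : X)
    (m : X →₀ ℕ) (hm : ∀ x, m x < p) (hφ : φ (π.g x) = comb π m) (y : X) (hy : m y ≠ 0) :
    rk x ≤ rk y := by
  classical
  induction x using hwf.induction generalizing m y with
  | _ x ih =>
    by_contra hcon
    push Not at hcon
    obtain ⟨c, hc, hcy⟩ := hch (rk y) x hcon
    obtain ⟨mc, hmc, hφc⟩ := exists_rep hp hpg π d hd (φ (π.g c))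
    have h1 : φ (π.g x) = p • comb π mc := by
      rw [← hφc, ← map_nsmul, π.rel, hc]
      rfl
    have h2 : p • comb π mc ∈ AddSubgroup.closure {a | ∃ y, rk c < rk y ∧ a = π.g y} := by
      unfold comb Finsupp.sum
      rw [Finset.smul_sum]
      apply AddSubgroup.sum_mem
      intro z hz
      rw [smul_comm]
      apply AddSubgroup.nsmul_mem
      rw [π.rel]
      cases hPz : P z with
      | none => exact AddSubgroup.zero_mem _
      | some z' =>
        apply AddSubgroup.subset_closure
        refine ⟨z', ?_, rfl⟩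
        exact lt_of_le_of_lt (ih c hc mc hmc hφc z (Finsupp.mem_support_iff.1 hz)) (hrk z z' hPz)
    rw [← h1, hφ] at h2
    have h3 := support_of_mem hp π d hd rk hrk (fun y => rk c < rk y)
      (fun a b hab hle => lt_of_lt_of_le hab hle) m hm h2 y hy
    exact absurd h3 (not_lt.2 hcy)

/-- The non-slender case for simply presented groups. -/
theorem exists_finite_invariant (hp : p.Prime) (hpg : ∀ a : A, ∃ n : ℕ, p ^ n • a = 0)
    (π : Pres p P A)
    (d : X → ℕ) (hd : ∀ x y, P x = some y → d y < d x) {O : Type*} [LinearOrder O] (rk : X → O)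
    (hrk : ∀ x y, P x = some y → rk x < rk y)
    (hch : ∀ (o : O) (y : X), o < rk y → ∃ c, P c = some y ∧ o ≤ rk c)
    (hwf : WellFounded (fun x y => P x = some y))
    (x1 : X) (hfin : {r : X | P r = none ∧ rk x1 ≤ rk r}.Finite) :
    ∃ F : AddSubgroup A, Finite F ∧ (∀ (φ : AddMonoid.End A), ∀ x ∈ F, φ x ∈ F) ∧ F ≠ ⊥ := by
  classical
  have hroot : ∀ n x, d x = n → ∃ r, P r = none ∧ (r = x ∨ rk x < rk r) := by
    intro n
    induction n using Nat.strong_induction_on with
    | _ n ih =>
      intro x hx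
      cases hPx : P x with
      | none => exact ⟨x, hPx, Or.inl rfl⟩
      | some y =>
        obtain ⟨r, hr, h⟩ := ih (d y) (by have := hd x y hPx; omega) y rfl
        refine ⟨r, hr, Or.inr ?_⟩
        rcases h with h | h
        · rw [h]
          exact hrk x y hPx
        · exact (hrk x y hPx).trans h
  obtain ⟨r1, hr1, hr1'⟩ := hroot _ x1 rfl
  have hr1R : r1 ∈ {r : X | P r = none ∧ rk x1 ≤ rk r} := by
    refine ⟨hr1, ?_⟩
    rcases hr1' with h | h
    · rw [h]
    · exact h.le
  obtain ⟨r0, hr0, hmax⟩ := Set.exists_max_image _ rk hfin ⟨r1, hr1R⟩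
  let T : Set A := {a | ∃ r, (P r = none ∧ rk r = rk r0) ∧ a = π.g r}
  have hTfin : T.Finite := by
    have h1 : {r : X | P r = none ∧ rk r = rk r0}.Finite := by
      apply hfin.subset
      intro r hr
      exact ⟨hr.1, hr.2 ▸ hr0.2⟩
    refine (h1.image π.g).subset ?_
    rintro a ⟨r, hr, rfl⟩
    exact ⟨r, hr, rfl⟩
  refine ⟨AddSubgroup.closure T, ?_, ?_, ?_⟩
  · have hfg : (AddSubgroup.closure T).FG := ⟨hTfin.toFinset, by rw [hTfin.coe_toFinset]⟩
    have : AddGroup.FG (AddSubgroup.closure T) := (AddGroup.fg_iff_addSubgroup_fg _).2 hfg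
    apply AddCommGroup.finite_of_fg_isAddTorsion
    intro x
    obtain ⟨n, hn⟩ := hpg (x : A)
    rw [isOfFinAddOrder_iff_nsmul_eq_zero]
    exact ⟨p ^ n, pow_pos hp.pos n, Subtype.ext hn⟩
  · intro φ x hx
    induction hx using AddSubgroup.closure_induction with
    | mem a h =>
      obtain ⟨r, hr, rfl⟩ := h
      obtain ⟨m, hm, hφ⟩ := exists_rep hp hpg π d hd (φ (π.g r))
      rw [hφ]
      unfold comb Finsupp.sum
      apply AddSubgroup.sum_mem
      intro y hy
      apply AddSubgroup.nsmul_mem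
      apply AddSubgroup.subset_closure
      have h1 := endo_rank hp hpg π d hd rk hrk hch hwf φ r m hm hφ y
        (Finsupp.mem_support_iff.1 hy)
      rw [hr.2] at h1
      obtain ⟨r', hr', h⟩ := hroot _ y rfl
      have h2 : rk y ≤ rk r' := by
        rcases h with h | h
        · rw [h]
        · exact h.le
      have h3 := hmax r' ⟨hr', hr0.2.trans (h1.trans h2)⟩
      rcases h with h | h
      · subst h
        exact ⟨r', ⟨hr', le_antisymm h3 h1⟩, rfl⟩
      · exact absurd (lt_of_le_of_lt h1 h) (not_lt.2 h3)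
    | zero => rw [map_zero]; exact AddSubgroup.zero_mem _
    | add a b _ _ ha hb => rw [map_add]; exact AddSubgroup.add_mem _ ha hb
    | neg a _ ha => rw [map_neg]; exact AddSubgroup.neg_mem _ ha
  · intro h
    have h1 : π.g r0 ∈ AddSubgroup.closure T := AddSubgroup.subset_closure ⟨r0, ⟨hr0.1, rfl⟩, rfl⟩
    rw [h, AddSubgroup.mem_bot] at h1
    exact gen_ne_zero hp π d hd r0 h1

/-- In a reduced group there is no infinite ascending branch. -/
theorem wf_of_reduced (hp : p.Prime) (hpg : ∀ a : A, ∃ n : ℕ, p ^ n • a = 0)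
    (π : Pres p P A) (d : X → ℕ) (hd : ∀ x y, P x = some y → d y < d x)
    (hred : divPart A = ⊥) : WellFounded (fun x y => P x = some y) := by
  rw [wellFounded_iff_isEmpty_descending_chain]
  constructor
  rintro ⟨x, hx⟩
  let H : AddSubgroup A := AddSubgroup.closure (Set.range fun n => π.g (x n))
  have hpow : ∀ e n, p ^ e • π.g (x (n + e)) = π.g (x n) := by
    intro e
    induction e with
    | zero => intro n; rw [pow_zero, one_smul]; rfl
    | succ e ih =>
      intro n
      have h1 : π.g (x (n + e)) = p • π.g (x (n + (e + 1))) := by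
        rw [π.rel, ← add_assoc, hx (n + e)]
        rfl
      rw [pow_succ, mul_smul, ← h1, ih]
  have hH : H ≤ divPart A := by
    apply le_sSup
    intro N hN z hz
    obtain ⟨e, N', hN', rfl⟩ := Nat.exists_eq_pow_mul_and_not_dvd hN p hp.ne_one
    induction hz using AddSubgroup.closure_induction with
    | mem a h =>
      obtain ⟨n, rfl⟩ := h
      obtain ⟨k, hk⟩ := hpg (π.g (x (n + e)))
      have hcop : Nat.Coprime N' (p ^ k) :=
        Nat.Coprime.pow_right _ ((Nat.Prime.coprime_iff_not_dvd hp).2 hN').symm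
      obtain ⟨w, hw⟩ : ∃ w : ℤ, (N' : ℤ) * w ≡ 1 [ZMOD (p ^ k : ℕ)] :=
        Int.mod_coprime hcop
      refine ⟨w • π.g (x (n + e)),
        AddSubgroup.zsmul_mem _ (AddSubgroup.subset_closure (Set.mem_range_self (n + e))) _, ?_⟩
      obtain ⟨q, hq⟩ := hw.symm.dvd
      have h1 : (N' : ℤ) * w = 1 + q * ((p ^ k : ℕ) : ℤ) := by linarith
      have h2 : N' • (w • π.g (x (n + e))) = π.g (x (n + e)) := by
        rw [← natCast_zsmul, ← mul_smul, h1, add_smul, one_smul, mul_smul, natCast_zsmul, hk,
          smul_zero, add_zero]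
      rw [mul_smul, h2, hpow]
    | zero => exact ⟨0, AddSubgroup.zero_mem _, smul_zero _⟩
    | add a b _ _ ha hb =>
      obtain ⟨a', ha', ha⟩ := ha
      obtain ⟨b', hb', hb⟩ := hb
      exact ⟨a' + b', AddSubgroup.add_mem _ ha' hb', by rw [smul_add, ha, hb]⟩
    | neg a _ ha =>
      obtain ⟨a', ha', ha⟩ := ha
      exact ⟨-a', AddSubgroup.neg_mem _ ha', by rw [smul_neg, ha]⟩
  have h0 : π.g (x 0) ∈ divPart A := hH (AddSubgroup.subset_closure (Set.mem_range_self 0))
  rw [hred, AddSubgroup.mem_bot] at h0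
  exact gen_ne_zero hp π d hd (x 0) h0

end Tree3

/-- Slenderness of simply presented groups. -/
theorem slender_simplyPresented (p : ℕ) (hp : p.Prime)
    (hpg : ∀ a : A, ∃ n : ℕ, p ^ n • a = 0) (hsp : SimplyPresented p A) :
    ESlender A ↔ ∀ F : AddSubgroup A, Finite F →
      (∀ (φ : AddMonoid.End A), ∀ x ∈ F, φ x ∈ F) → F = ⊥ := by
  classical
  constructor
  · intro hsl F hF hinv
    by_contra hne
    exact not_slender_of_finite F hF hne hinv hsl
  · intro hno
    by_cases hred : divPart A = ⊥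
    · obtain ⟨X, P, d, hd, ⟨π⟩⟩ := hsp.pres
      have hwf := wf_of_reduced hp hpg π d hd hred
      have hwf' : IsWellFounded X (fun x y => P x = some y) := ⟨hwf⟩
      let rk : X → Ordinal := IsWellFounded.rank (fun x y => P x = some y)
      have hrk : ∀ x y, P x = some y → rk x < rk y := fun x y h =>
        IsWellFounded.rank_lt_of_rel (r := fun x y => P x = some y) h
      have hch : ∀ (o : Ordinal) (y : X), o < rk y → ∃ c, P c = some y ∧ o ≤ rk c := by
        intro o y ho
        have h1 : rk y = ⨆ b : { b // P b = some y }, Order.succ (rk b) :=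
          IsWellFounded.rank_eq (fun x y => P x = some y) y
        rw [h1, Ordinal.lt_iSup_iff] at ho
        obtain ⟨⟨c, hc⟩, h2⟩ := ho
        exact ⟨c, hc, Order.lt_succ_iff.1 h2⟩
      by_cases hall : ∀ x, {r : X | P r = none ∧ rk x ≤ rk r}.Infinite
      · exact slender_tree hp hpg π d hd rk hrk hch hall
      · push Not at hall
        obtain ⟨x1, hx1⟩ := hall
        obtain ⟨F, h1, h2, h3⟩ := exists_finite_invariant hp hpg π d hd rk hrk hch hwf x1 hx1
        exact absurd (hno F h1 h2) h3
    · rw [slender_nonreduced p hp hpg hred]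
      by_contra hcon
      rw [Set.not_infinite] at hcon
      have h1 := hno (socDiv p A) hcon.to_subtype (by
        intro φ x hx
        exact ⟨divPart_invariant φ x hx.1, by rw [← map_nsmul, hx.2, map_zero]⟩)
      obtain ⟨x, hx, hx0⟩ : ∃ x : A, x ∈ divPart A ∧ x ≠ 0 := by
        by_contra hcon
        push Not at hcon
        exact hred ((AddSubgroup.eq_bot_iff_forall _).2 hcon)
      obtain ⟨n, hn1, hn2⟩ := exists_socle p hpg x hx0
      have h2 : p ^ n • x ∈ socDiv p A := ⟨AddSubgroup.nsmul_mem _ hx _, hn2⟩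
      rw [h1, AddSubgroup.mem_bot] at h2
      exact hn1 h2

/-- The elements of infinite height as a submodule over the endomorphism ring. -/
def infSub (p : ℕ) (A : Type u) [AddCommGroup A] : Submodule (AddMonoid.End A) A where
  carrier := {a | ∀ n : ℕ, ∃ b : A, p ^ n • b = a}
  zero_mem' := (infHeight p A).zero_mem
  add_mem' := fun ha hb => (infHeight p A).add_mem ha hb
  smul_mem' := fun φ a ha n => by
    obtain ⟨b, hb⟩ := ha n
    refine ⟨φ b, ?_⟩
    rw [← map_nsmul, hb]
    rfl

/-- Homomorphism from `ZMod N` with `1 ↦ y` when `N y = 0`, and `0` otherwise. -/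
noncomputable def ml (N : ℕ) (y : A) : ZMod N →+ A := by
  classical
  exact if h : N • y = 0 then zl N y h else 0

theorem ml_int (N : ℕ) (y : A) (hy : N • y = 0) (m : ℤ) : ml N y (m : ZMod N) = m • y := by
  unfold ml
  rw [dif_pos hy, zl_int]

/-- The operator `T` on sequences of elements of bounded orders. -/
theorem exists_T (p : ℕ) (hp : p.Prime)
    (F : (ℕ → AddMonoid.End A) → A)
    (hadd : ∀ g h : ℕ → AddMonoid.End A, F (fun n => g n + h n) = F g + F h)
    (hmul : ∀ (φ : AddMonoid.End A) (g : ℕ → AddMonoid.End A), F (fun n => φ * g n) = φ (F g))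
    (a : ℕ → A) (hsingle : ∀ (n : ℕ) (φ : AddMonoid.End A), F (Pi.single n φ) = φ (a n))
    (Nf : ℕ → ℕ) (hN : ∀ n, ¬ ∃ b : A, p ^ Nf n • b = a n) :
    ∃ (h : ℕ → ℕ) (T : (ℕ → A) → A), (∀ k, k ≤ h k) ∧ (∀ k l, k < l → h k < h l) ∧
      (∀ y y' : ℕ → A, (∀ k, p ^ (h k + 1) • y k = 0) → (∀ k, p ^ (h k + 1) • y' k = 0) →
        T (fun k => y k + y' k) = T y + T y') ∧
      (∀ (φ : AddMonoid.End A) (y : ℕ → A), (∀ k, p ^ (h k + 1) • y k = 0) →
        T (fun k => φ (y k)) = φ (T y)) ∧
      ∀ (k : ℕ) (y : A), p ^ (h k + 1) • y = 0 → T (Pi.single k y) = p ^ h k • y := by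
  classical
  obtain ⟨h, hNh, hKh, hmono⟩ : ∃ h : ℕ → ℕ, (∀ k, Nf k ≤ h k) ∧ (∀ k, k ≤ h k) ∧
      ∀ k l, k < l → h k < h l := by
    refine ⟨fun k => k + ∑ i ∈ Finset.range (k + 1), Nf i, ?_, ?_, ?_⟩
    · intro k
      have : Nf k ≤ ∑ i ∈ Finset.range (k + 1), Nf i :=
        Finset.single_le_sum (f := Nf) (fun _ _ => Nat.zero_le _)
          (Finset.mem_range.2 (Nat.lt_succ_self k))
      show Nf k ≤ k + _
      omega
    · intro k
      exact Nat.le_add_right _ _
    · intro k l hkl
      apply add_lt_add_of_lt_of_le hkl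
      apply Finset.sum_le_sum_of_subset
      apply Finset.range_mono
      omega
  have hdet : ∀ k, ∃ χ : A →+ ZMod (p ^ (h k + 1)),
      χ (a k) = ((p ^ h k : ℕ) : ZMod (p ^ (h k + 1))) := fun k =>
    exists_detect_pow p hp (Nf k) (h k) (hNh k) (a k) (hN k)
  choose χ hχ using hdet
  let G : (ℕ → A) → ℕ → AddMonoid.End A := fun y k => (ml (p ^ (h k + 1)) (y k)).comp (χ k)
  have hG : ∀ (y : ℕ → A) (k : ℕ) (z : A) (m : ℤ), p ^ (h k + 1) • y k = 0 →
      (m : ZMod (p ^ (h k + 1))) = χ k z → G y k z = m • y k := by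
    intro y k z m hy hm
    show ml _ (y k) (χ k z) = _
    rw [← hm, ml_int _ _ hy]
  refine ⟨h, fun y => F (G y), hKh, hmono, ?_, ?_, ?_⟩
  · intro y y' hy hy'
    show F (G _) = F (G y) + F (G y')
    rw [← hadd]
    congr 1
    funext k
    ext z
    obtain ⟨m, hm⟩ := ZMod.intCast_surjective (χ k z)
    have e1 : (G y k + G y' k) z = G y k z + G y' k z := rfl
    rw [e1, hG (fun k => y k + y' k) k z m (by rw [smul_add, hy, hy', add_zero]) hm,
      hG y k z m (hy k) hm, hG y' k z m (hy' k) hm, smul_add]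
  · intro φ y hy
    show F (G _) = φ (F (G y))
    rw [← hmul]
    congr 1
    funext k
    ext z
    obtain ⟨m, hm⟩ := ZMod.intCast_surjective (χ k z)
    have e1 : (φ * G y k) z = φ (G y k z) := rfl
    rw [e1, hG (fun k => φ (y k)) k z m (by rw [← map_nsmul, hy, map_zero]) hm,
      hG y k z m (hy k) hm, map_zsmul]
  · intro k y hy
    show F (G (Pi.single k y)) = _
    have h1 : G (Pi.single k y) = Pi.single k (G (fun _ => y) k) := by
      funext l
      rcases eq_or_ne l k with rfl | hl
      · rw [Pi.single_eq_same]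
        show (ml (p ^ (h l + 1)) ((Pi.single l y : ℕ → A) l)).comp (χ l) =
          (ml (p ^ (h l + 1)) y).comp (χ l)
        rw [Pi.single_eq_same]
      · rw [Pi.single_eq_of_ne hl]
        ext z
        obtain ⟨m, hm⟩ := ZMod.intCast_surjective (χ l z)
        rw [hG (Pi.single k y) l z m (by rw [Pi.single_eq_of_ne hl, smul_zero]) hm,
          Pi.single_eq_of_ne hl, smul_zero]
        rfl
    rw [h1, hsingle]
    rw [hG (fun _ => y) k (a k) ((p ^ h k : ℕ) : ℤ) hy (by rw [hχ]; push_cast; rfl),
      natCast_zsmul]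

/-- If some homomorphism does not send almost all `e_n` to elements of infinite height, and `A`
is reduced with elements of infinite height, then these elements form a non-slender module. -/
theorem infSub_not_slender (p : ℕ) (hp : p.Prime) (hpg : ∀ a : A, ∃ n : ℕ, p ^ n • a = 0)
    (hred : divPart A = ⊥) (hG : infHeight p A ≠ ⊥)
    (F : (ℕ → AddMonoid.End A) → A)
    (hadd : ∀ g h : ℕ → AddMonoid.End A, F (fun n => g n + h n) = F g + F h)
    (hmul : ∀ (φ : AddMonoid.End A) (g : ℕ → AddMonoid.End A), F (fun n => φ * g n) = φ (F g))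
    (a : ℕ → A) (hsingle : ∀ (n : ℕ) (φ : AddMonoid.End A), F (Pi.single n φ) = φ (a n))
    (ha : ∀ n, a n ∉ infHeight p A) : ¬ Slender (AddMonoid.End A) (infSub p A) := by
  classical
  have hN : ∀ n, ∃ N : ℕ, ¬ ∃ b : A, p ^ N • b = a n := by
    intro n
    by_contra hcon
    push Not at hcon
    exact ha n hcon
  choose Nf hNf using hN
  obtain ⟨h, T, hKh, hmono, hTadd, hTend, hTsingle⟩ :=
    exists_T p hp F hadd hmul a hsingle Nf hNf
  -- an element of infinite height that is not divisible inside the subgroup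
  obtain ⟨z, hz, hzp⟩ : ∃ z ∈ infHeight p A, ∀ y ∈ infHeight p A, p • y ≠ z := by
    by_contra hcon
    push Not at hcon
    apply hG
    rw [eq_bot_iff, ← hred]
    apply le_sSup
    have hpow : ∀ e : ℕ, ∀ z ∈ infHeight p A, ∃ y ∈ infHeight p A, p ^ e • y = z := by
      intro e
      induction e with
      | zero => intro z hz; exact ⟨z, hz, by rw [pow_zero, one_smul]⟩
      | succ e ih =>
        intro z hz
        obtain ⟨y, hy, hyz⟩ := ih z hz
        obtain ⟨x, hx, hxy⟩ := hcon y hy
        exact ⟨x, hx, by rw [pow_succ, mul_smul, hxy, hyz]⟩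
    intro N hN z hz
    obtain ⟨e, N', hN', rfl⟩ := Nat.exists_eq_pow_mul_and_not_dvd hN p hp.ne_one
    obtain ⟨y, hy, hyz⟩ := hpow e z hz
    obtain ⟨k, hk⟩ := hpg y
    have hcop : Nat.Coprime N' (p ^ k) :=
      Nat.Coprime.pow_right _ ((Nat.Prime.coprime_iff_not_dvd hp).2 hN').symm
    obtain ⟨w, hw⟩ : ∃ w : ℤ, (N' : ℤ) * w ≡ 1 [ZMOD (p ^ k : ℕ)] := Int.mod_coprime hcop
    refine ⟨w • y, AddSubgroup.zsmul_mem _ hy _, ?_⟩
    obtain ⟨q, hq⟩ := hw.symm.dvd
    have h1 : (N' : ℤ) * w = 1 + q * ((p ^ k : ℕ) : ℤ) := by linarith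
    have h2 : N' • (w • y) = y := by
      rw [← natCast_zsmul, ← mul_smul, h1, add_smul, one_smul, mul_smul, natCast_zsmul, hk,
        smul_zero, add_zero]
    rw [mul_smul, h2, hyz]
  have hz0 : z ≠ 0 := by
    intro h0
    exact hzp 0 (AddSubgroup.zero_mem _) (by rw [smul_zero, h0])
  have hunb : ∀ n : ℕ, ∃ b : A, p ^ n • b ≠ 0 := by
    intro n
    obtain ⟨b, hb⟩ := hz n
    exact ⟨b, by rw [hb]; exact hz0⟩
  -- basic facts on T
  have hT0 : T (fun _ => 0) = 0 := by
    have h1 := hTadd (fun _ => 0) (fun _ => 0) (fun _ => smul_zero _) (fun _ => smul_zero _)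
    simp only [add_zero] at h1
    exact left_eq_add.1 h1
  let tail : (ℕ → A) → ℕ → ℕ → A := fun y K k => if K ≤ k then y k else 0
  have htadm : ∀ (y : ℕ → A) (K : ℕ), (∀ k, p ^ (h k + 1) • y k = 0) →
      ∀ k, p ^ (h k + 1) • tail y K k = 0 := by
    intro y K hy k
    simp only [tail]
    split_ifs
    · exact hy k
    · exact smul_zero _
  have hsplit : ∀ y : ℕ → A, (∀ k, p ^ (h k + 1) • y k = 0) → ∀ K,
      T y = (∑ k ∈ Finset.range K, p ^ h k • y k) + T (tail y K) := by
    intro y hy K
    induction K with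
    | zero =>
      rw [Finset.sum_range_zero, zero_add]
      congr 1
    | succ K ih =>
      have h1 : T (tail y K) = p ^ h K • y K + T (tail y (K + 1)) := by
        rw [← hTsingle K (y K) (hy K), ← hTadd _ _ _ (htadm y (K + 1) hy)]
        · congr 1
          funext k
          rcases lt_trichotomy k K with hk | hk | hk
          · rw [Pi.single_eq_of_ne hk.ne]
            simp only [tail]
            rw [if_neg (by omega), if_neg (by omega), add_zero]
          · subst hk
            rw [Pi.single_eq_same]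
            simp only [tail]
            rw [if_pos (le_refl _), if_neg (by omega), add_zero]
          · rw [Pi.single_eq_of_ne hk.ne']
            simp only [tail]
            rw [if_pos (by omega), if_pos (by omega), zero_add]
        · intro k
          rcases eq_or_ne k K with rfl | hk
          · rw [Pi.single_eq_same]
            exact hy k
          · rw [Pi.single_eq_of_ne hk, smul_zero]
      rw [ih, h1, Finset.sum_range_succ, add_assoc]
  -- divisibility criterion
  have hdiv : ∀ (y : ℕ → A) (L K : ℕ), (∀ k, p ^ (h k + 1) • y k = 0) →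
      (∀ k, K ≤ k → ∃ x : A, p ^ L • x = y k) →
      (∀ k, k < K → ∃ x : A, p ^ L • x = p ^ h k • y k) → ∃ b : A, p ^ L • b = T y := by
    intro y L K hy h1 h2
    by_contra hcon
    obtain ⟨χ', hχ'⟩ := exists_detect (p ^ L) (pow_pos hp.pos _) _ hcon
    obtain ⟨j, hj⟩ := exists_order p hp hpg hunb L
    let ψ : AddMonoid.End A := j.comp χ'
    have hψ : ∀ x : A, ψ (p ^ L • x) = 0 := by
      intro x
      show j (χ' (p ^ L • x)) = 0
      rw [map_nsmul, nsmul_eq_mul, ZMod.natCast_self, zero_mul, map_zero]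
    have h3 := hTend ψ y hy
    have hψy : ∀ k, p ^ (h k + 1) • ψ (y k) = 0 := fun k => by
      rw [← map_nsmul, hy, map_zero]
    have h4 : T (fun k => ψ (y k)) = 0 := by
      rw [hsplit _ hψy K]
      have h5 : (∑ k ∈ Finset.range K, p ^ h k • ψ (y k)) = 0 := by
        apply Finset.sum_eq_zero
        intro k hk
        obtain ⟨x, hx⟩ := h2 k (Finset.mem_range.1 hk)
        rw [← map_nsmul, ← hx, hψ]
      have h6 : tail (fun k => ψ (y k)) K = fun _ => 0 := by
        funext k
        simp only [tail]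
        split_ifs with hk
        · obtain ⟨x, hx⟩ := h1 k hk
          rw [← hx, hψ]
        · rfl
      rw [h5, h6, hT0, add_zero]
    rw [h4] at h3
    have h7 : j (χ' (T y)) = 0 := h3.symm
    rw [← map_zero j] at h7
    exact hχ' (hj h7)
  -- the sequence
  have hx : ∀ m : ℕ, ∃ x : A, p ^ (2 * m) • x = z := fun m => hz (2 * m)
  choose x hx using hx
  -- X m = p^m x_m, p^m X_m = z
  let Xm : ℕ → A := fun m => p ^ m • x m
  have hXm : ∀ m, p ^ m • Xm m = z := by
    intro m
    show p ^ m • (p ^ m • x m) = z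
    rw [← mul_smul, ← pow_add, ← two_mul, hx]
  let y : ℕ → A := fun k => Xm (h k + 1) - p ^ (h (k + 1) - h k) • Xm (h (k + 1) + 1)
  have hmk : ∀ k, h k < h (k + 1) := fun k => hmono k (k + 1) (Nat.lt_succ_self k)
  have hyadm : ∀ k, p ^ (h k + 1) • y k = 0 := by
    intro k
    show p ^ (h k + 1) • (Xm (h k + 1) - p ^ (h (k + 1) - h k) • Xm (h (k + 1) + 1)) = 0
    rw [smul_sub, hXm, ← mul_smul, ← pow_add]
    have e1 : h k + 1 + (h (k + 1) - h k) = h (k + 1) + 1 := by
      have := hmk k
      omega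
    rw [e1, hXm, sub_self]
  have hydiv : ∀ k L, L ≤ h k + 1 → ∃ b : A, p ^ L • b = y k := by
    intro k L hL
    refine ⟨p ^ (h k + 1 - L) • x (h k + 1) -
      p ^ (h (k + 1) - h k + (h (k + 1) + 1 - L)) • x (h (k + 1) + 1), ?_⟩
    show _ = p ^ (h k + 1) • x (h k + 1) - p ^ (h (k + 1) - h k) •
      (p ^ (h (k + 1) + 1) • x (h (k + 1) + 1))
    have hk := hmk k
    rw [smul_sub, ← mul_smul, ← mul_smul, ← mul_smul, ← pow_add, ← pow_add, ← pow_add]
    have e1 : L + (h k + 1 - L) = h k + 1 := by omega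
    have e2 : L + (h (k + 1) - h k + (h (k + 1) + 1 - L)) =
      h (k + 1) - h k + (h (k + 1) + 1) := by omega
    rw [e1, e2]
  -- partial sums
  let s : ℕ → A := fun k => p ^ h k • Xm (h k + 1)
  have hs : ∀ k, p • s k = z := by
    intro k
    show p • (p ^ h k • Xm (h k + 1)) = z
    rw [← mul_smul, ← pow_succ', hXm]
  have hsum : ∀ K, (∑ k ∈ Finset.range K, p ^ h k • y k) = s 0 - s K := by
    intro K
    induction K with
    | zero => rw [Finset.sum_range_zero, sub_self]
    | succ K ih =>
      rw [Finset.sum_range_succ, ih]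
      have h1 : p ^ h K • y K = s K - s (K + 1) := by
        show p ^ h K • (Xm (h K + 1) - p ^ (h (K + 1) - h K) • Xm (h (K + 1) + 1)) =
          p ^ h K • Xm (h K + 1) - p ^ h (K + 1) • Xm (h (K + 1) + 1)
        have e1 : h K + (h (K + 1) - h K) = h (K + 1) := by
          have := hmk K
          omega
        have e2 : p ^ h K • (p ^ (h (K + 1) - h K) • Xm (h (K + 1) + 1)) =
            p ^ h (K + 1) • Xm (h (K + 1) + 1) := by
          rw [← mul_smul, ← pow_add, e1]
        rw [smul_sub, e2]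
      rw [h1]
      abel
  have hw : T y - s 0 ∈ infHeight p A := by
    intro L
    obtain ⟨b1, hb1⟩ := hdiv (tail y L) L L (htadm y L hyadm) (by
      intro k hk
      simp only [tail]
      rw [if_pos hk]
      exact hydiv k L (by have := hKh k; omega)) (by
      intro k hk
      simp only [tail]
      rw [if_neg (by omega)]
      exact ⟨0, by rw [smul_zero, smul_zero]⟩)
    have hsL : ∃ b : A, p ^ L • b = s L := by
      refine ⟨p ^ (h L - L + (h L + 1)) • x (h L + 1), ?_⟩
      show _ = p ^ h L • (p ^ (h L + 1) • x (h L + 1))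
      rw [← mul_smul, ← mul_smul, ← pow_add, ← pow_add]
      congr 2
      have := hKh L
      omega
    obtain ⟨b2, hb2⟩ := hsL
    refine ⟨b1 - b2, ?_⟩
    rw [smul_sub, hb1, hb2, hsplit y hyadm L, hsum L]
    abel
  let η : ℕ → A := fun k => p • y k
  have hηadm : ∀ k, p ^ (h k + 1) • η k = 0 := by
    intro k
    show p ^ (h k + 1) • (p • y k) = 0
    rw [smul_comm, hyadm, smul_zero]
  have hη0 : ∀ k, p ^ h k • η k = 0 := by
    intro k
    show p ^ h k • (p • y k) = 0
    rw [← mul_smul, ← pow_succ, hyadm]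
  have hTη : T η = p • T y := by
    let P : AddMonoid.End A := nsmulAddMonoidHom p
    exact hTend P y hyadm
  have hv0 : T η ≠ 0 := by
    rw [hTη]
    intro h0
    apply hzp (-(T y - s 0)) (AddSubgroup.neg_mem _ hw)
    rw [smul_neg, smul_sub, h0, hs, zero_sub, neg_neg]
  have hTηtail : ∀ K, T (tail η K) = T η := by
    intro K
    rw [hsplit η hηadm K]
    have h1 : (∑ k ∈ Finset.range K, p ^ h k • η k) = 0 :=
      Finset.sum_eq_zero (fun k _ => hη0 k)
    rw [h1, zero_add]
  -- the homomorphism to infSub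
  let ρ : (ℕ → AddMonoid.End A) → ℕ → AddMonoid.End A := fun r k =>
    ∑ i ∈ Finset.range (k + 1), r i
  have hadm : ∀ r k, p ^ (h k + 1) • ρ r k (η k) = 0 := by
    intro r k
    rw [← map_nsmul, hηadm, map_zero]
  have hmem : ∀ r, T (fun k => ρ r k (η k)) ∈ infSub p A := by
    intro r L
    apply hdiv _ L L (hadm r)
    · intro k hk
      obtain ⟨b, hb⟩ := hydiv k L (by have := hKh k; omega)
      refine ⟨ρ r k (p • b), ?_⟩
      rw [← map_nsmul, smul_comm, hb]
    · intro k _
      refine ⟨0, ?_⟩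
      rw [← map_nsmul, hη0, map_zero, smul_zero]
  apply not_slender_gen (R := AddMonoid.End A) (M := infSub p A)
    (fun r => ⟨T (fun k => ρ r k (η k)), hmem r⟩)
  · intro r r'
    apply Subtype.ext
    show T _ = T _ + T _
    rw [← hTadd _ _ (hadm r) (hadm r')]
    congr 1
    funext k
    show (∑ i ∈ Finset.range (k + 1), (r i + r' i)) (η k) = ρ r k (η k) + ρ r' k (η k)
    rw [Finset.sum_add_distrib]
    rfl
  · intro c r
    apply Subtype.ext
    show T _ = c (T _)
    rw [← hTend c _ (hadm r)]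
    congr 1
    funext k
    show (∑ i ∈ Finset.range (k + 1), (c * r i)) (η k) = c (ρ r k (η k))
    rw [← Finset.mul_sum]
    rfl
  · intro n h0
    have h1 : T (fun k => ρ (Pi.single n 1) k (η k)) = 0 := congrArg Subtype.val h0
    apply hv0
    rw [← hTηtail n, ← h1]
    congr 1
    funext k
    show tail η n k = (∑ i ∈ Finset.range (k + 1), (Pi.single n (1 : AddMonoid.End A) :
      ℕ → AddMonoid.End A) i) (η k)
    simp only [tail]
    by_cases hk : n ≤ k
    · rw [if_pos hk, Finset.sum_eq_single_of_mem n (Finset.mem_range.2 (by omega)),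
        Pi.single_eq_same]
      · rfl
      · intro i _ hi
        rw [Pi.single_eq_of_ne hi]
    · rw [if_neg hk, Finset.sum_eq_zero]
      · rfl
      · intro i hi
        have := Finset.mem_range.1 hi
        rw [Pi.single_eq_of_ne (by omega)]

/-- Reduced groups with elements of infinite height. -/
theorem slender_iff_infSub (p : ℕ) (hp : p.Prime) (hpg : ∀ a : A, ∃ n : ℕ, p ^ n • a = 0)
    (hred : divPart A = ⊥) (hG : infHeight p A ≠ ⊥) :
    ESlender A ↔ Slender (AddMonoid.End A) (infSub p A) := by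
  classical
  constructor
  · intro hsl f
    have h1 := hsl ((infSub p A).subtype ∘ₗ f)
    apply h1.subset
    intro n hn
    show ((f (Pi.single n 1) : infSub p A) : A) ≠ 0
    intro h0
    exact hn (Subtype.ext h0)
  · intro hsl f
    by_contra hinf
    rw [Set.not_finite] at hinf
    -- case 1
    have hcase1 : ∀ f : (ℕ → AddMonoid.End A) →ₗ[AddMonoid.End A] A,
        {n : ℕ | f (Pi.single n 1) ∉ infHeight p A}.Finite := by
      intro f
      by_contra hinf
      rw [Set.not_finite] at hinf
      obtain ⟨f2, hf2⟩ := exists_restrict f (fun n => (hinf.natEmbedding _ n : ℕ)) (by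
        intro a b hab
        exact (hinf.natEmbedding _).injective (Subtype.ext hab))
      exact infSub_not_slender p hp hpg hred hG (fun g => f2 g) (fun g h => map_add f2 g h)
        (fun φ g => map_mul_gen f2 φ g) (fun n => f2 (Pi.single n 1))
        (fun n φ => map_single_gen f2 n φ)
        (fun n => by rw [hf2]; exact (hinf.natEmbedding _ n).2) hsl
    have h2 : ({n : ℕ | f (Pi.single n 1) ≠ 0} \
        {n : ℕ | f (Pi.single n 1) ∉ infHeight p A}).Infinite := hinf.sdiff (hcase1 f)
    obtain ⟨f2, hf2⟩ := exists_restrict f (fun n => (h2.natEmbedding _ n : ℕ)) (by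
      intro a b hab
      exact (h2.natEmbedding _).injective (Subtype.ext hab))
    have hf2G : ∀ n, f2 (Pi.single n 1) ∈ infHeight p A := by
      intro n
      rw [hf2]
      have h3 := (h2.natEmbedding _ n).2.2
      by_contra hcon
      exact h3 hcon
    have hf20 : ∀ n, f2 (Pi.single n 1) ≠ 0 := by
      intro n
      rw [hf2]
      exact (h2.natEmbedding _ n).2.1
    by_cases hall : ∀ y, f2 y ∈ infSub p A
    · have h4 := hsl (f2.codRestrict (infSub p A) hall)
      have h5 : {n : ℕ | (f2.codRestrict (infSub p A) hall) (Pi.single n 1) ≠ 0} = Set.univ := by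
        apply Set.eq_univ_of_forall
        intro n h0
        exact hf20 n (congrArg Subtype.val h0)
      rw [h5] at h4
      exact Set.infinite_univ h4
    · push Not at hall
      obtain ⟨y, hy⟩ := hall
      let ρ : (ℕ → AddMonoid.End A) → ℕ → AddMonoid.End A := fun r k =>
        (∑ i ∈ Finset.range (k + 1), r i) * y k
      have hρ : ∀ r, ρ r = fun k => (∑ i ∈ Finset.range (k + 1), r i) * y k := fun r => rfl
      have hsingle : ∀ n (φ : AddMonoid.End A), f2 (ρ (Pi.single n φ)) =
          φ (f2 (ρ (Pi.single n 1))) := by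
        intro n φ
        have h6 : ρ (Pi.single n φ) = fun k => φ * ρ (Pi.single n 1) k := by
          funext k
          show (∑ i ∈ Finset.range (k + 1), (Pi.single n φ : ℕ → AddMonoid.End A) i) * y k =
            φ * ((∑ i ∈ Finset.range (k + 1), (Pi.single n 1 : ℕ → AddMonoid.End A) i) * y k)
          rw [← mul_assoc, Finset.mul_sum]
          congr 1
          apply Finset.sum_congr rfl
          intro i _
          rcases eq_or_ne i n with rfl | hi
          · rw [Pi.single_eq_same, Pi.single_eq_same, mul_one]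
          · rw [Pi.single_eq_of_ne hi, Pi.single_eq_of_ne hi, mul_zero]
        rw [h6]
        exact map_mul_gen f2 φ _
      apply infSub_not_slender p hp hpg hred hG (fun r => f2 (ρ r)) _ _
        (fun n => f2 (ρ (Pi.single n 1))) hsingle _ hsl
      · intro g h
        have h6 : ρ (fun n => g n + h n) = fun k => ρ g k + ρ h k := by
          funext k
          show (∑ i ∈ Finset.range (k + 1), (g i + h i)) * y k = _
          rw [Finset.sum_add_distrib, add_mul]
        show f2 _ = f2 _ + f2 _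
        rw [h6]
        exact map_add f2 _ _
      · intro φ g
        have h6 : ρ (fun n => φ * g n) = fun k => φ * ρ g k := by
          funext k
          show (∑ i ∈ Finset.range (k + 1), (φ * g i)) * y k = φ * (_ * y k)
          rw [← Finset.mul_sum, mul_assoc]
        show f2 _ = φ (f2 _)
        rw [h6]
        exact map_mul_gen f2 φ _
      · intro n
        -- ρ (single n 1) = y on [n, ∞)
        let tl : ℕ → ℕ → AddMonoid.End A := fun K k => if K ≤ k then y k else 0
        have htl : ρ (Pi.single n 1) = tl n := by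
          funext k
          show (∑ i ∈ Finset.range (k + 1), (Pi.single n 1 : ℕ → AddMonoid.End A) i) * y k = _
          simp only [tl]
          by_cases hk : n ≤ k
          · rw [if_pos hk, Finset.sum_eq_single_of_mem n (Finset.mem_range.2 (by omega)),
              Pi.single_eq_same, one_mul]
            intro i _ hi
            rw [Pi.single_eq_of_ne hi]
          · rw [if_neg hk, Finset.sum_eq_zero, zero_mul]
            intro i hi
            have := Finset.mem_range.1 hi
            rw [Pi.single_eq_of_ne (by omega)]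
        have hstep : ∀ K, f2 (tl K) - f2 y ∈ infHeight p A := by
          intro K
          induction K with
          | zero =>
            have : tl 0 = y := by
              funext k
              simp [tl]
            rw [this, sub_self]
            exact AddSubgroup.zero_mem _
          | succ K ih =>
            have h7 : tl K = fun k => (Pi.single K (y K) : ℕ → AddMonoid.End A) k +
                tl (K + 1) k := by
              funext k
              rcases lt_trichotomy k K with hk | hk | hk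
              · rw [Pi.single_eq_of_ne hk.ne]
                simp only [tl]
                rw [if_neg (by omega), if_neg (by omega), add_zero]
              · subst hk
                rw [Pi.single_eq_same]
                simp only [tl]
                rw [if_pos (le_refl _), if_neg (by omega), add_zero]
              · rw [Pi.single_eq_of_ne hk.ne']
                simp only [tl]
                rw [if_pos (by omega), if_pos (by omega), zero_add]
            have h8 : f2 (tl K) = y K (f2 (Pi.single K 1)) + f2 (tl (K + 1)) := by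
              have h9 : f2 (fun k => (Pi.single K (y K) : ℕ → AddMonoid.End A) k +
                tl (K + 1) k) = f2 (Pi.single K (y K)) + f2 (tl (K + 1)) := map_add f2 _ _
              have h10 : f2 (Pi.single K (y K)) = y K (f2 (Pi.single K 1)) :=
                map_single_gen f2 K (y K)
              rw [← h10, ← h9, ← h7]
            have h11 : y K (f2 (Pi.single K 1)) ∈ infHeight p A := by
              intro n
              obtain ⟨b, hb⟩ := hf2G K n
              refine ⟨y K b, ?_⟩
              rw [← map_nsmul, hb]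
            have h12 : f2 (tl (K + 1)) - f2 y =
                (f2 (tl K) - f2 y) - y K (f2 (Pi.single K 1)) := by
              rw [h8]
              abel
            rw [h12]
            exact AddSubgroup.sub_mem _ ih h11
        show f2 (ρ (Pi.single n 1)) ∉ infHeight p A
        rw [htl]
        intro hcon
        apply hy
        have h13 := AddSubgroup.sub_mem _ hcon (hstep n)
        rw [sub_sub_cancel] at h13
        exact h13

/-- The uniform criterion. -/
theorem criterion (p : ℕ) (hp : p.Prime) (hpg : ∀ a : A, ∃ n : ℕ, p ^ n • a = 0)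
    (hcl : divPart A ≠ ⊥ ∨ infHeight p A = ⊥ ∨ SimplyPresented p A) :
    ESlender A ↔
      (∀ F : AddSubgroup A, Finite F → (∀ (φ : AddMonoid.End A), ∀ x ∈ F, φ x ∈ F) → F = ⊥) ∧
      ¬ (infHeight p A = ⊥ ∧ (∀ n : ℕ, ∃ a : A, p ^ n • a ≠ 0) ∧ TorsionComplete p A) := by
  classical
  constructor
  · intro hsl
    refine ⟨?_, ?_⟩
    · intro F hF hinv
      by_contra hne
      exact not_slender_of_finite F hF hne hinv hsl
    · rintro ⟨hsep, hunb, htc⟩
      apply not_slender_of_tc p hpg _ hunb htc hsl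
      intro a ha
      have h1 : a ∈ infHeight p A := ha
      rwa [hsep, AddSubgroup.mem_bot] at h1
  · rintro ⟨hno, htc⟩
    rcases hcl with h | h | h
    · rw [slender_nonreduced p hp hpg h]
      by_contra hcon
      rw [Set.not_infinite] at hcon
      have h1 := hno (socDiv p A) hcon.to_subtype (by
        intro φ x hx
        exact ⟨divPart_invariant φ x hx.1, by rw [← map_nsmul, hx.2, map_zero]⟩)
      obtain ⟨x, hx, hx0⟩ : ∃ x : A, x ∈ divPart A ∧ x ≠ 0 := by
        by_contra hcon
        push Not at hcon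
        exact h ((AddSubgroup.eq_bot_iff_forall _).2 hcon)
      obtain ⟨n, hn1, hn2⟩ := exists_socle p hpg x hx0
      have h2 : p ^ n • x ∈ socDiv p A := ⟨AddSubgroup.nsmul_mem _ hx _, hn2⟩
      rw [h1, AddSubgroup.mem_bot] at h2
      exact hn1 h2
    · rw [slender_separable p hp hpg h]
      by_cases hb : ∃ n : ℕ, ∀ a : A, p ^ n • a = 0
      · obtain ⟨k, hk0, hkmin⟩ : ∃ k, (∀ a : A, p ^ k • a = 0) ∧
            ∀ i, (∀ a : A, p ^ i • a = 0) → k ≤ i :=
          ⟨Nat.find hb, Nat.find_spec hb, fun i hi => Nat.find_min' hb hi⟩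
        rcases Nat.eq_zero_or_pos k with rfl | hk1
        · left
          intro a
          have := hk0 a
          rwa [pow_zero, one_smul] at this
        · obtain ⟨l, rfl⟩ := Nat.exists_eq_succ_of_ne_zero hk1.ne'
          right; left
          refine ⟨l, hk0, ?_⟩
          by_contra hF
          rw [Set.not_infinite] at hF
          have h1 := hno (mulRange (p ^ l) A) hF.to_subtype (by
            intro φ x hx
            obtain ⟨y, rfl⟩ := hx
            exact ⟨φ y, by
              show p ^ l • φ y = φ (p ^ l • y)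
              rw [map_nsmul]⟩)
          have h2 : ∀ a : A, p ^ l • a = 0 := by
            intro a
            have : p ^ l • a ∈ mulRange (p ^ l) A := ⟨a, rfl⟩
            rwa [h1, AddSubgroup.mem_bot] at this
          have := hkmin l h2
          omega
      · push Not at hb
        right; right
        intro h1
        exact htc ⟨h, hb, h1⟩
    · exact (slender_simplyPresented p hp hpg h).2 hno

/-- **Main theorem.** Slenderness of abelian `p`-groups over their endomorphism rings.

An abelian `p`-group `A` is slender as a module over its endomorphism ring if and only if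
(1) `A` has no nonzero finite fully invariant subgroup;
(2) `A` is not an unbounded torsion-complete group;
(3) if `A` is reduced and not simply presented, then the subgroup of all elements of infinite
height is slender as a module over the endomorphism ring of `A`.

Condition (3) holds trivially when `A` has no nonzero elements of infinite height. -/
theorem result (p : ℕ) (hp : p.Prime) (A : Type u) [AddCommGroup A]
    (hpg : ∀ a : A, ∃ n : ℕ, p ^ n • a = 0) :
    ESlender A ↔
      (∀ F : AddSubgroup A, Finite F → (∀ (φ : AddMonoid.End A), ∀ x ∈ F, φ x ∈ F) → F = ⊥) ∧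
      ¬ (infHeight p A = ⊥ ∧ (∀ n : ℕ, ∃ a : A, p ^ n • a ≠ 0) ∧ TorsionComplete p A) ∧
      (divPart A = ⊥ → ¬ SimplyPresented p A → Slender (AddMonoid.End A) (infSub p A)) := by
  classical
  constructor
  · intro hsl
    refine ⟨?_, ?_, ?_⟩
    · intro F hF hinv
      by_contra hne
      exact not_slender_of_finite F hF hne hinv hsl
    · rintro ⟨hsep, hunb, htc⟩
      apply not_slender_of_tc p hpg _ hunb htc hsl
      intro a ha
      have h1 : a ∈ infHeight p A := ha
      rwa [hsep, AddSubgroup.mem_bot] at h1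
    · intro hred _
      by_cases hG : infHeight p A = ⊥
      · intro f
        apply Set.Finite.subset Set.finite_empty
        intro n hn
        apply hn
        apply Subtype.ext
        have h1 : ((f (Pi.single n 1) : infSub p A) : A) ∈ infHeight p A :=
          (f (Pi.single n 1)).2
        rwa [hG, AddSubgroup.mem_bot] at h1
      · exact (slender_iff_infSub p hp hpg hred hG).1 hsl
  · rintro ⟨h1, h2, h3⟩
    by_cases hred : divPart A = ⊥
    · by_cases hsp : SimplyPresented p A
      · exact (slender_simplyPresented p hp hpg hsp).2 h1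
      · by_cases hG : infHeight p A = ⊥
        · exact (criterion p hp hpg (Or.inr (Or.inl hG))).2 ⟨h1, h2⟩
        · exact (slender_iff_infSub p hp hpg hred hG).2 (h3 hred hsp)
    · exact (criterion p hp hpg (Or.inl hred)).2 ⟨h1, h2⟩

end Pool.Agent.Results.MP_fa2e48_al.EndoSlender
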